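import Pool.Agent.EF50.Gam

/-!
# EF50: legality of diagrams in finitely bounded structures
-/

set_option autoImplicit false

namespace EF50

open EF39

section
variable {l : ℕ} {ar : Fin l → ℕ} {M : Type} {S : ∀ i, (Fin (ar i) → M) → Prop}

/-- a structure on `N` points embeds if all its substructures with few points do -/
theorem exists_bound [Nonempty M] (h : FBHom ar S) : ∃ B : ℕ, ∀ (N : ℕ) (X : Atom → Prop),
    (∀ T : Finset ℕ, T ⊆ Finset.range N → T.card ≤ B → Leg ar S X T) → Leg ar S X (Finset.range N) := by
  classical
  obtain ⟨F, hF, hF'⟩ := h.bounded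
  refine ⟨hF.toFinset.sup (fun A => A.size), ?_⟩
  intro N X hX
  let A : FinStr ar := ⟨N, fun i x => X (atm i (fun t => (x t : ℕ)))⟩
  have hA : Emb A S := by
    rw [hF' A]
    rintro B' hB' ⟨g, hg1, hg2⟩
    let T : Finset ℕ := Finset.univ.image (fun j : Fin B'.size => (g j : ℕ))
    have hT1 : T ⊆ Finset.range N := by
      intro z hz
      simp only [T, Finset.mem_image] at hz
      obtain ⟨j, -, rfl⟩ := hz
      rw [Finset.mem_range]
      exact (g j).2
    have hT2 : T.card ≤ hF.toFinset.sup (fun A => A.size) := by
      refine le_trans (Finset.card_image_le.trans (by simp)) (Finset.le_sup (f := fun A : FinStr ar => A.size)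
        (hF.mem_toFinset.2 hB'))
    obtain ⟨w, hw1, hw2⟩ := hX T hT1 hT2
    have hmem : ∀ j, (g j : ℕ) ∈ T := fun j => Finset.mem_image_of_mem _ (Finset.mem_univ j)
    have hemb : Emb B' S := by
      refine ⟨fun j => w (g j), ?_, ?_⟩
      · intro j j' hjj
        exact hg1 (Fin.ext (hw1 (by simpa using hmem j) (by simpa using hmem j') hjj))
      · intro i x
        rw [← hg2 i x]
        have h1 := hw2 (atm i (fun t => (g (x t) : ℕ))) (WF_atm _ _) (by
          intro z hz
          rw [mem_supp_atm] at hz
          obtain ⟨t, rfl⟩ := hz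
          exact hmem _)
        rw [Hold_atm] at h1
        exact h1
    rw [hF'] at hemb
    exact hemb B' hB' ⟨id, Function.injective_id, fun i x => Iff.rfl⟩
  obtain ⟨f, hf1, hf2⟩ := hA
  let m0 : M := Classical.arbitrary M
  refine ⟨fun i => if hi : i < N then f ⟨i, hi⟩ else m0, ?_, ?_⟩
  · intro i hi j hj hij
    have hi' : i < N := by simpa using hi
    have hj' : j < N := by simpa using hj
    simp only [hi', hj', dif_pos] at hij
    have := hf1 hij
    exact congrArg Fin.val this
  · intro a ha hs
    obtain ⟨i, x, rfl⟩ := exists_atm ha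
    have hx : ∀ t, x t < N := by
      intro t
      have := hs (mem_supp_atm.2 ⟨t, rfl⟩)
      simpa using this
    rw [Hold_atm]
    have h1 := hf2 i (fun t => ⟨x t, hx t⟩)
    simp only [hx, dif_pos]
    exact h1

/-- the legality test -/
def LegT {l : ℕ} (ar : Fin l → ℕ) (la : List QF) (N : ℕ) (X : List Atom) : Prop :=
  ∀ T ∈ subs (List.range N), T.length < la.length → EvF ar T.length T (fun a => a ∈ X) (la.getD T.length [])

theorem exists_la [Nonempty M] (h : FBHom ar S) : ∃ la : List QF, ∀ (N : ℕ) (X : List Atom),
    LD ar S N X ↔ LegT ar la N X := by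
  classical
  obtain ⟨B, hB⟩ := exists_bound h
  have hla := fun c => qf_def ar S c (fun _ => True)
  choose la hla using hla
  refine ⟨(List.range (B + 1)).map la, ?_⟩
  have hlen : ((List.range (B + 1)).map la).length = B + 1 := by simp
  have hget : ∀ c < B + 1, ((List.range (B + 1)).map la).getD c [] = la c := by
    intro c hc
    rw [List.getD_eq_getElem _ _ (by rw [hlen]; exact hc)]
    simp
  intro N X
  have key : ∀ T : List ℕ, T ∈ subs (List.range N) → T.length < B + 1 →
      (EvF ar T.length T (fun a => a ∈ X) (((List.range (B + 1)).map la).getD T.length []) ↔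
        Leg ar S (fun a => a ∈ X) T.toFinset) := by
    intro T hT hlT
    rw [hget _ hlT, hla]
    apply leg_list
    rw [mem_subs_range] at hT
    exact hT.1.imp fun h => h.ne
  constructor
  · intro hL T hT hlT
    rw [hlen] at hlT
    rw [key T hT hlT]
    apply Leg_mono _ hL
    intro z hz
    rw [mem_subs_range] at hT
    simpa using hT.2 z (by simpa using hz)
  · intro hL
    apply hB
    intro T hT hTB
    have h1 : T.sort (· ≤ ·) ∈ subs (List.range N) := by
      rw [mem_subs_range]
      refine ⟨?_, ?_⟩
      · exact (Finset.sortedLT_sort T).pairwise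
      · intro x hx
        have : x ∈ T := by simpa using hx
        simpa using hT this
    have h2 : (T.sort (· ≤ ·)).length < B + 1 := by
      rw [Finset.length_sort]
      omega
    have h3 := (key _ h1 h2).1 (hL _ h1 (by rw [hlen]; exact h2))
    have h4 : (T.sort (· ≤ ·)).toFinset = T := by
      ext x
      simp
    rw [h4] at h3
    exact h3

end

end EF50
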