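import Pool.Agent.EF39.Comp
import Pool.Agent.EF50.Leg

/-!
# EF50: the checks are primitive recursive
-/

set_option autoImplicit false

namespace EF50

open EF39

section
variable {α β γ : Type} [Primcodable α] [Primcodable β] [Primcodable γ]

open Classical in
/-- the members of a list with a property -/
noncomputable def filt {β : Type} (p : β → Prop) (L : List β) : List β := L.flatMap (fun b => if p b then [b] else [])

omit [Primcodable β] in
theorem mem_filt {p : β → Prop} {L : List β} {b : β} : b ∈ filt p L ↔ b ∈ L ∧ p b := by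
  classical
  unfold filt
  rw [List.mem_flatMap]
  constructor
  · rintro ⟨c, hc, hb⟩
    split_ifs at hb with h
    · rw [List.mem_singleton] at hb
      subst hb
      exact ⟨hc, h⟩
    · simp at hb
  · rintro ⟨h1, h2⟩
    exact ⟨b, h1, by simp [h2]⟩

theorem pr_filt {p : α → β → Prop} {L : α → List β} (hp : PrimrecPred (fun x : α × β => p x.1 x.2))
    (hL : Primrec L) : Primrec (fun a => filt (p a) (L a)) := by
  unfold filt
  apply pr_flatMap hL
  exact pr_ite hp (pr_cons Primrec.snd (Primrec.const _)) (Primrec.const _)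

theorem pp_EvB {l : ℕ} (ar : Fin l → ℕ) {m : α → ℕ} {h : α → List ℕ} {X : α → Atom → Prop} {b : α → Atom}
    (hm : Primrec m) (hh : Primrec h) (hX : PrimrecPred (fun x : α × Atom => X x.1 x.2)) (hb : Primrec b) :
    PrimrecPred (fun a => EvB ar (m a) (h a) (X a) (b a)) := by
  unfold EvB
  have h1 := pr_fst hb
  have h2 := pr_snd hb
  have hall : PrimrecPred (fun a => ∀ x ∈ (b a).2, x < m a) :=
    pp_forall h2 (pp_lt Primrec.snd (hm.comp Primrec.fst))
  apply pp_or
  · apply pp_and (pp_eq h1 (Primrec.const _))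
    apply pp_and (pp_eq (pr_len h2) (Primrec.const _))
    apply pp_and hall
    exact pp_eq (pr_getD hh (pr_getD h2 (Primrec.const _))) (pr_getD hh (pr_getD h2 (Primrec.const _)))
  · apply pp_and (pp_le (Primrec.const _) h1)
    apply pp_and (pp_WF ar (pr_pair (pr_sub h1 (Primrec.const _)) h2))
    apply pp_and hall
    have h3 : Primrec (fun a => (a, ((b a).1 - 1, (b a).2.map (fun x => (h a).getD x 0)))) := by
      apply pr_pair Primrec.id
      apply pr_pair (pr_sub h1 (Primrec.const _))
      apply pr_map h2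
      exact pr_getD (hh.comp Primrec.fst) Primrec.snd
    exact hX.comp h3

theorem pp_EvF {l : ℕ} (ar : Fin l → ℕ) {m : α → ℕ} {h : α → List ℕ} {X : α → Atom → Prop} {φ : α → QF}
    (hm : Primrec m) (hh : Primrec h) (hX : PrimrecPred (fun x : α × Atom => X x.1 x.2)) (hφ : Primrec φ) :
    PrimrecPred (fun a => EvF ar (m a) (h a) (X a) (φ a)) := by
  unfold EvF
  apply pp_exists hφ
  apply pp_forall Primrec.snd
  apply pp_iff
  · have hf : Primrec (fun x : (α × List (Bool × Atom)) × (Bool × Atom) => x.1.1) := pr_fst Primrec.fst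
    apply pp_EvB ar (hm.comp hf) (hh.comp hf)
    · exact hX.comp (f := fun x : ((α × List (Bool × Atom)) × (Bool × Atom)) × Atom => (x.1.1.1, x.2))
        (pr_pair (hf.comp Primrec.fst) Primrec.snd)
    · exact pr_snd Primrec.snd
  · exact pp_eq (pr_fst Primrec.snd) (Primrec.const _)

/-- evaluation in a diagram given by a list -/
theorem pp_EvL {l : ℕ} (ar : Fin l → ℕ) {m : α → ℕ} {h : α → List ℕ} {X : α → List Atom} {φ : α → QF}
    (hm : Primrec m) (hh : Primrec h) (hX : Primrec X) (hφ : Primrec φ) :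
    PrimrecPred (fun a => EvF ar (m a) (h a) (fun b => b ∈ X a) (φ a)) :=
  pp_EvF ar hm hh (pp_mem Primrec.snd (hX.comp Primrec.fst)) hφ

end

section
variable {l : ℕ} (ar : Fin l → ℕ) (la : List QF)

/-- one step of the computation -/
def Stp (P : List (ℕ × QF)) (N : ℕ) (L : List (List Atom × List Atom)) (X Y : List Atom) : Prop :=
  Base ar P N X Y ∧
    (∀ X' ∈ subs (atomsL ar (N + 1)), LegT ar la (N + 1) X' → ExtD ar N X X' →
      ∃ Y' ∈ subs (atomsL ar (N + 1)), LegT ar la (N + 1) Y' ∧ ExtD ar N Y Y' ∧ (X', Y') ∈ L) ∧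
    (∀ Y' ∈ subs (atomsL ar (N + 1)), LegT ar la (N + 1) Y' → ExtD ar N Y Y' →
      ∃ X' ∈ subs (atomsL ar (N + 1)), LegT ar la (N + 1) X' ∧ ExtD ar N X X' ∧ (X', Y') ∈ L)

/-- all pairs of diagrams -/
def prs (N : ℕ) : List (List Atom × List Atom) :=
  (subs (atomsL ar N)).flatMap (fun X => (subs (atomsL ar N)).map (fun Y => (X, Y)))

theorem mem_prs {N : ℕ} {q : List Atom × List Atom} :
    q ∈ prs ar N ↔ q.1 ∈ subs (atomsL ar N) ∧ q.2 ∈ subs (atomsL ar N) := by
  obtain ⟨X, Y⟩ := q
  simp only [prs, List.mem_flatMap, List.mem_map, Prod.mk.injEq]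
  constructor
  · rintro ⟨a, h1, b, h2, rfl, rfl⟩
    exact ⟨h1, h2⟩
  · rintro ⟨h1, h2⟩
    exact ⟨X, h1, Y, h2, rfl, rfl⟩

/-- the list of the pairs of diagrams of `R - j` points which are equivalent for the game with `j` rounds -/
noncomputable def Tbl (P : List (ℕ × QF)) (R : ℕ) : ℕ → List (List Atom × List Atom)
  | 0 => filt (fun q => Base ar P R q.1 q.2) (prs ar R)
  | j + 1 => filt (fun q => Stp ar la P (R - (j + 1)) (Tbl P R j) q.1 q.2) (prs ar (R - (j + 1)))

variable {M : Type} {S : ∀ i, (Fin (ar i) → M) → Prop}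

theorem mem_Tbl (hla : ∀ (N : ℕ) (X : List Atom), LD ar S N X ↔ LegT ar la N X) (P : List (ℕ × QF)) (R j : ℕ)
    (hj : j ≤ R) (q : List Atom × List Atom) : q ∈ Tbl ar la P R j ↔
      (q.1 ∈ subs (atomsL ar (R - j)) ∧ q.2 ∈ subs (atomsL ar (R - j))) ∧ WR ar S P j (R - j) q.1 q.2 := by
  induction j generalizing q with
  | zero =>
    simp only [Tbl, mem_filt, mem_prs, WR, Nat.sub_zero]
  | succ j ih =>
    have e : R - (j + 1) + 1 = R - j := by omega
    simp only [Tbl, mem_filt, mem_prs, WR, Stp, e, hla]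
    apply and_congr_right
    intro _
    apply and_congr_right
    intro _
    apply and_congr
    · apply forall_congr'
      intro X'
      apply imp_congr_right
      intro hX'
      apply imp_congr_right
      intro _
      apply imp_congr_right
      intro _
      apply exists_congr
      intro Y'
      apply and_congr_right
      intro hY'
      apply and_congr_right
      intro _
      apply and_congr_right
      intro _
      rw [ih (by omega)]
      exact and_iff_right ⟨hX', hY'⟩
    · apply forall_congr'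
      intro X'
      apply imp_congr_right
      intro hX'
      apply imp_congr_right
      intro _
      apply imp_congr_right
      intro _
      apply exists_congr
      intro Y'
      apply and_congr_right
      intro hY'
      apply and_congr_right
      intro _
      apply and_congr_right
      intro _
      rw [ih (by omega)]
      exact and_iff_right ⟨hY', hX'⟩

section
variable {α : Type} [Primcodable α]

theorem pp_LegT {N : α → ℕ} {X : α → List Atom} (hN : Primrec N) (hX : Primrec X) :
    PrimrecPred (fun a => LegT ar la (N a) (X a)) := by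
  unfold LegT
  apply pp_forall (pr_subs (pr_range hN))
  apply pp_imp (pp_lt (pr_len Primrec.snd) (Primrec.const _))
  exact pp_EvL ar (pr_len Primrec.snd) Primrec.snd (hX.comp Primrec.fst)
    (pr_getD (Primrec.const _) (pr_len Primrec.snd))

theorem pp_ExtD {N : α → ℕ} {X Y : α → List Atom} (hN : Primrec N) (hX : Primrec X) (hY : Primrec Y) :
    PrimrecPred (fun a => ExtD ar (N a) (X a) (Y a)) := by
  unfold ExtD
  apply pp_forall (pr_atomsL ar hN)
  exact pp_iff (pp_mem Primrec.snd (hY.comp Primrec.fst)) (pp_mem Primrec.snd (hX.comp Primrec.fst))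

theorem pp_Base {P : α → List (ℕ × QF)} {N : α → ℕ} {X Y : α → List Atom} (hP : Primrec P) (hN : Primrec N)
    (hX : Primrec X) (hY : Primrec Y) : PrimrecPred (fun a => Base ar (P a) (N a) (X a) (Y a)) := by
  unfold Base
  apply pp_forall hP
  apply pp_forall (pr_listsOf (pr_fst Primrec.snd) (hN.comp Primrec.fst))
  have h1 : Primrec (fun x : (α × (ℕ × QF)) × List ℕ => x.1.1) := pr_fst Primrec.fst
  have h2 : Primrec (fun x : (α × (ℕ × QF)) × List ℕ => x.1.2) := pr_snd Primrec.fst
  exact pp_iff (pp_EvL ar (pr_fst h2) Primrec.snd (hX.comp h1) (pr_snd h2))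
    (pp_EvL ar (pr_fst h2) Primrec.snd (hY.comp h1) (pr_snd h2))

theorem pp_Stp {P : α → List (ℕ × QF)} {N : α → ℕ} {L : α → List (List Atom × List Atom)} {X Y : α → List Atom}
    (hP : Primrec P) (hN : Primrec N) (hL : Primrec L) (hX : Primrec X) (hY : Primrec Y) :
    PrimrecPred (fun a => Stp ar la (P a) (N a) (L a) (X a) (Y a)) := by
  unfold Stp
  have hN1 : Primrec (fun a => N a + 1) := pr_add hN (Primrec.const 1)
  have hs := pr_subs (pr_atomsL ar hN1)
  apply pp_and (pp_Base ar hP hN hX hY)
  apply pp_and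
  · apply pp_forall hs
    apply pp_imp (pp_LegT ar la (hN1.comp Primrec.fst) Primrec.snd)
    apply pp_imp (pp_ExtD ar (hN.comp Primrec.fst) (hX.comp Primrec.fst) Primrec.snd)
    apply pp_exists (hs.comp Primrec.fst)
    have h1 : Primrec (fun x : (α × List Atom) × List Atom => x.1.1) := pr_fst Primrec.fst
    apply pp_and (pp_LegT ar la (hN1.comp h1) Primrec.snd)
    apply pp_and (pp_ExtD ar (hN.comp h1) (hY.comp h1) Primrec.snd)
    exact pp_mem (pr_pair (pr_snd Primrec.fst) Primrec.snd) (hL.comp h1)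
  · apply pp_forall hs
    apply pp_imp (pp_LegT ar la (hN1.comp Primrec.fst) Primrec.snd)
    apply pp_imp (pp_ExtD ar (hN.comp Primrec.fst) (hY.comp Primrec.fst) Primrec.snd)
    apply pp_exists (hs.comp Primrec.fst)
    have h1 : Primrec (fun x : (α × List Atom) × List Atom => x.1.1) := pr_fst Primrec.fst
    apply pp_and (pp_LegT ar la (hN1.comp h1) Primrec.snd)
    apply pp_and (pp_ExtD ar (hN.comp h1) (hX.comp h1) Primrec.snd)
    exact pp_mem (pr_pair Primrec.snd (pr_snd Primrec.fst)) (hL.comp h1)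

theorem pr_prs {N : α → ℕ} (hN : Primrec N) : Primrec (fun a => prs ar (N a)) := by
  unfold prs
  have hs := pr_subs (pr_atomsL ar hN)
  apply pr_flatMap hs
  apply pr_map (hs.comp Primrec.fst)
  exact pr_pair (pr_snd Primrec.fst) Primrec.snd

theorem pr_Tbl {P : α → List (ℕ × QF)} {R j : α → ℕ} (hP : Primrec P) (hR : Primrec R) (hj : Primrec j) :
    Primrec (fun a => Tbl ar la (P a) (R a) (j a)) := by
  have h1 : Primrec (fun a => Nat.rec (motive := fun _ => List (List Atom × List Atom))
      (filt (fun q => Base ar (P a) (R a) q.1 q.2) (prs ar (R a)))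
      (fun i L => filt (fun q => Stp ar la (P a) (R a - (i + 1)) L q.1 q.2) (prs ar (R a - (i + 1)))) (j a)) := by
    apply Primrec.nat_rec' (f := j) (g := fun a => filt (fun q => Base ar (P a) (R a) q.1 q.2) (prs ar (R a)))
      (h := fun a (p : ℕ × List (List Atom × List Atom)) =>
        filt (fun q => Stp ar la (P a) (R a - (p.1 + 1)) p.2 q.1 q.2) (prs ar (R a - (p.1 + 1)))) hj
    · apply pr_filt _ (pr_prs ar hR)
      exact pp_Base ar (hP.comp Primrec.fst) (hR.comp Primrec.fst) (pr_fst Primrec.snd) (pr_snd Primrec.snd)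
    · have hN : Primrec (fun x : α × (ℕ × List (List Atom × List Atom)) => R x.1 - (x.2.1 + 1)) :=
        pr_sub (hR.comp Primrec.fst) (pr_add (pr_fst Primrec.snd) (Primrec.const 1))
      apply pr_filt _ (pr_prs ar hN)
      exact pp_Stp ar la ((hP.comp Primrec.fst).comp Primrec.fst) (hN.comp Primrec.fst)
        ((pr_snd Primrec.snd).comp Primrec.fst) (pr_fst Primrec.snd) (pr_snd Primrec.snd)
  refine h1.of_eq fun a => ?_
  generalize j a = i
  induction i with
  | zero => rfl
  | succ i ih => simp only [Tbl, ← ih]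

theorem pp_Inv (hla : ∀ (N : ℕ) (X : List Atom), LD ar S N X ↔ LegT ar la N X) {P : α → List (ℕ × QF)}
    {x : α → ℕ × QF} {r : α → ℕ} (hP : Primrec P) (hx : Primrec x) (hr : Primrec r) :
    PrimrecPred (fun a => Inv ar S (P a) (x a) (r a)) := by
  have h1 : PrimrecPred (fun a => ∀ N ∈ List.range ((x a).1 + 1), ∀ h ∈ listsOf (x a).1 N,
      ∀ X ∈ subs (atomsL ar N), ∀ Y ∈ subs (atomsL ar N), LegT ar la N X → LegT ar la N Y →
        (X, Y) ∈ Tbl ar la (P a) (N + r a) (r a) →
        (EvF ar (x a).1 h (fun b => b ∈ X) (x a).2 ↔ EvF ar (x a).1 h (fun b => b ∈ Y) (x a).2)) := by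
    apply pp_forall (pr_range (pr_add (pr_fst hx) (Primrec.const 1)))
    apply pp_forall (pr_listsOf (pr_fst (hx.comp Primrec.fst)) Primrec.snd)
    apply pp_forall (pr_subs (pr_atomsL ar (pr_snd Primrec.fst)))
    apply pp_forall (pr_subs (pr_atomsL ar (pr_snd (pr_fst Primrec.fst))))
    have pa : Primrec (fun y : (((α × ℕ) × List ℕ) × List Atom) × List Atom => y.1.1.1.1) :=
      pr_fst (pr_fst (pr_fst Primrec.fst))
    have pN : Primrec (fun y : (((α × ℕ) × List ℕ) × List Atom) × List Atom => y.1.1.1.2) :=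
      pr_snd (pr_fst (pr_fst Primrec.fst))
    have ph : Primrec (fun y : (((α × ℕ) × List ℕ) × List Atom) × List Atom => y.1.1.2) :=
      pr_snd (pr_fst Primrec.fst)
    have pX : Primrec (fun y : (((α × ℕ) × List ℕ) × List Atom) × List Atom => y.1.2) := pr_snd Primrec.fst
    have pY : Primrec (fun y : (((α × ℕ) × List ℕ) × List Atom) × List Atom => y.2) := Primrec.snd
    apply pp_imp (pp_LegT ar la pN pX)
    apply pp_imp (pp_LegT ar la pN pY)
    apply pp_imp (pp_mem (pr_pair pX pY) (pr_Tbl ar la (hP.comp pa) (pr_add pN (hr.comp pa)) (hr.comp pa)))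
    exact pp_iff (pp_EvL ar (pr_fst (hx.comp pa)) ph pX (pr_snd (hx.comp pa)))
      (pp_EvL ar (pr_fst (hx.comp pa)) ph pY (pr_snd (hx.comp pa)))
  refine h1.of_eq fun a => ?_
  unfold Inv
  apply forall_congr'
  intro N
  apply imp_congr_right
  intro _
  apply forall_congr'
  intro h
  apply imp_congr_right
  intro _
  apply forall_congr'
  intro X
  apply imp_congr_right
  intro hX
  apply forall_congr'
  intro Y
  apply imp_congr_right
  intro hY
  rw [hla, hla, mem_Tbl ar la hla _ _ _ (by omega)]
  have e : N + r a - r a = N := by omega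
  simp only [e, hX, hY, true_and, and_self]

end

end

end EF50
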