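import Pool.Agent.EF39.Defs

/-!
# EF50 (MP_399079_lc): definability in structures with finitely many reducts

Definitions used in the final statement. `EF39.lang`, `EF39.str`, `EF39.FODef`, `EF39.Atom`, `EF39.QF` are as there.

* `AtomTrue`, `QFTrue`: truth of quantifier free formulas in disjunctive normal form over `(M; S)`, coded by lists.
* `FinStr`, `Emb`, `FBHom`: finitely bounded homogeneous structures.
* `DefL`: a relation given by a quantifier free formula is first-order definable from the relations given by a list of
  quantifier free formulas.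
* `FinAbove`: there are only finitely many reducts, up to first-order interdefinability, between a given reduct and
  `(M; S)`.
-/

set_option autoImplicit false

open FirstOrder

namespace EF50

open EF39

/-- the atomic formula `a` holds at the tuple `v`: the symbol number `0` is equality, `i + 1` is the relation `S i`
(atoms which are not well formed count as false) -/
def AtomTrue {l : ℕ} (ar : Fin l → ℕ) {M : Type} (S : ∀ i, (Fin (ar i) → M) → Prop) {n : ℕ} (v : Fin n → M) :
    Atom → Prop
  | (0, g) => ∃ a b : Fin n, g = [(a : ℕ), (b : ℕ)] ∧ v a = v b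
  | (i + 1, g) => ∃ (h : i < l) (x : Fin (ar ⟨i, h⟩) → Fin n), g = List.ofFn (fun t => (x t : ℕ)) ∧
      S ⟨i, h⟩ (v ∘ x)

/-- the quantifier free formula `φ` holds at the tuple `v` -/
def QFTrue {l : ℕ} (ar : Fin l → ℕ) {M : Type} (S : ∀ i, (Fin (ar i) → M) → Prop) {n : ℕ} (φ : QF)
    (v : Fin n → M) : Prop :=
  ∃ c ∈ φ, ∀ b ∈ c, (AtomTrue ar S v b.2 ↔ b.1 = true)

/-- a finite structure on `Fin size` with relations of arities `ar` -/
structure FinStr {l : ℕ} (ar : Fin l → ℕ) where
  /-- the number of points -/
  size : ℕ
  /-- the relations -/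
  rel : ∀ i, (Fin (ar i) → Fin size) → Prop

/-- the finite structure `A` embeds in `(M; S)` -/
def Emb {l : ℕ} {ar : Fin l → ℕ} (A : FinStr ar) {M : Type} (S : ∀ i, (Fin (ar i) → M) → Prop) : Prop :=
  ∃ f : Fin A.size → M, Function.Injective f ∧ ∀ i x, S i (f ∘ x) ↔ A.rel i x

/-- `(M; S)` is homogeneous and finitely bounded -/
structure FBHom {l : ℕ} (ar : Fin l → ℕ) {M : Type} (S : ∀ i, (Fin (ar i) → M) → Prop) : Prop where
  /-- every isomorphism between finite substructures extends to an automorphism -/
  homog : ∀ (N : ℕ) (a b : Fin N → M), Function.Injective a → Function.Injective b →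
    (∀ i (x : Fin (ar i) → Fin N), S i (a ∘ x) ↔ S i (b ∘ x)) →
    ∃ e : M ≃ M, (∀ i x, S i (e ∘ x) ↔ S i x) ∧ ∀ j, e (a j) = b j
  /-- there is a finite set of finite structures such that a finite structure embeds in `(M; S)` if and only if no
  member of this set embeds in it -/
  bounded : ∃ F : Set (FinStr ar), F.Finite ∧ ∀ A : FinStr ar, Emb A S ↔ ∀ B ∈ F, ¬ Emb B A.rel

/-- arities of the relations given by the list `P` of formulas with arities -/
def brL (P : List (ℕ × QF)) (j : Fin P.length) : ℕ := (P.get j).1

/-- the relations over `(M; S)` given by the list `P` of formulas with arities -/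
def relL {l : ℕ} (ar : Fin l → ℕ) {M : Type} (S : ∀ i, (Fin (ar i) → M) → Prop) (P : List (ℕ × QF))
    (j : Fin P.length) (v : Fin (brL P j) → M) : Prop :=
  QFTrue ar S (P.get j).2 v

/-- the relation given by `x` (an arity and a quantifier free formula over `(M; S)`) is first-order definable from
the relations given by the list `P` -/
def DefL {l : ℕ} (ar : Fin l → ℕ) {M : Type} (S : ∀ i, (Fin (ar i) → M) → Prop) (P : List (ℕ × QF))
    (x : ℕ × QF) : Prop :=
  FODef (brL P) (relL ar S P) (fun v : Fin x.1 → M => QFTrue ar S x.2 v)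

/-- up to first-order interdefinability there are only finitely many reducts `(M; T)` of `(M; S)` (with finite
signature) in which all relations given by the list `P` are first-order definable -/
def FinAbove {l : ℕ} (ar : Fin l → ℕ) {M : Type} (S : ∀ i, (Fin (ar i) → M) → Prop) (P : List (ℕ × QF)) : Prop :=
  ∃ (m : ℕ) (p : Fin m → ℕ) (cr : ∀ i, Fin (p i) → ℕ) (R : ∀ i j, (Fin (cr i j) → M) → Prop),
    (∀ i j, FODef ar S (R i j)) ∧
    ∀ (k : ℕ) (br : Fin k → ℕ) (T : ∀ j, (Fin (br j) → M) → Prop), (∀ j, FODef ar S (T j)) →
      (∀ j, FODef br T (relL ar S P j)) →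
      ∃ i, (∀ j, FODef (cr i) (R i) (T j)) ∧ ∀ j, FODef br T (R i j)

end EF50
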