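import Pool.Agent.EF39.Types
import Pool.Agent.EF50.Defs

/-!
# EF50: types over the reduct of a homogeneous structure
-/

set_option autoImplicit false

open FirstOrder Language

namespace EF50

open EF39

variable {l : ℕ} {ar : Fin l → ℕ} {M : Type} {S : ∀ i, (Fin (ar i) → M) → Prop}
variable {k : ℕ} {br : Fin k → ℕ} {T : ∀ j, (Fin (br j) → M) → Prop}

/-- the extension property -/
structure ExtP {l : ℕ} (ar : Fin l → ℕ) {M : Type} (S : ∀ i, (Fin (ar i) → M) → Prop) : Prop where
  /-- extension property -/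
  ext : ∀ (m m' : ℕ) (v : ℕ → M) (X : Atom → Prop), m ≤ m' → Set.InjOn v (Finset.range m) →
    Leg ar S X (Finset.range m') → (∀ a, WF ar a → supp a ⊆ Finset.range m → (Hold ar S v a ↔ X a)) →
    ∃ v' : ℕ → M, (∀ i < m, v' i = v i) ∧ Set.InjOn v' (Finset.range m') ∧
      ∀ a, WF ar a → supp a ⊆ Finset.range m' → (Hold ar S v' a ↔ X a)

theorem IS_forth (hN : ExtP ar S) {N : ℕ} {v w : ℕ → M} (h : IS ar S N v w) (a : M) (ha : ∀ i < N, v i ≠ a) :
    ∃ v' w', (∀ i < N, v' i = v i) ∧ (∀ i < N, w' i = w i) ∧ v' N = a ∧ IS ar S (N + 1) v' w' := by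
  have h1 : ∀ i < N, Function.update v N a i = v i := fun i hi => by
    rw [Function.update_of_ne (by omega)]
  have hinj : Set.InjOn (Function.update v N a) (Finset.range (N + 1)) :=
    injOn_succ h.1 h1 (fun i hi => by rw [Function.update_self]; exact ha i hi)
  obtain ⟨w', hw1, hw2, hw3⟩ := hN.ext N (N + 1) w (Hold ar S (Function.update v N a)) (by omega) h.2.1
    (Leg_Hold hinj) (by
      intro b hb hs
      rw [supp_subset_range] at hs
      rw [← h.2.2 b hb hs]
      exact Hold_congr fun z hz => (h1 z (hs z hz)).symm)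
  refine ⟨Function.update v N a, w', h1, hw1, Function.update_self _ _ _, hinj, hw2, ?_⟩
  intro b hb hs
  exact (hw3 b hb (supp_subset_range.2 hs)).symm

/-- the pairs of tuples with the same diagram form a back and forth system -/
theorem IS_bfs (hN : ExtP ar S) : BFS ar S (IS ar S) where
  injv := fun h => h.1
  injw := fun h => h.2.1
  rel := by
    intro N v w h j x hx
    have h1 := h.2.2 (atm j x) (WF_atm j x) (by
      intro z hz
      rw [mem_atm] at hz
      obtain ⟨t, rfl⟩ := hz
      exact hx t)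
    rw [Hold_atm, Hold_atm] at h1
    exact h1
  forth := fun h a ha => IS_forth hN h a ha
  back := by
    intro N v w h b hb
    obtain ⟨w', v', h1, h2, h3, h4⟩ := IS_forth hN h.symm b hb
    exact ⟨v', w', h2, h1, h3, h4.symm⟩

theorem IS_bfs' (hN : ExtP ar S) (hT : ∀ j, FODef ar S (T j)) : BFS br T (IS ar S) where
  injv := fun h => h.1
  injw := fun h => h.2.1
  rel := by
    intro N v w h j x hx
    obtain ⟨φ, hφ⟩ := hT j
    rw [hφ, hφ]
    have h1 := bf_idx (IS_bfs hN) φ h x Fin.elim0 hx (fun i => i.elim0)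
    let _ := str ar S
    rw [Formula.boundedFormula_realize_eq_realize, Formula.boundedFormula_realize_eq_realize] at h1
    exact h1
  forth := (IS_bfs hN).forth
  back := (IS_bfs hN).back

theorem ET_of_SD (hN : ExtP ar S) (hT : ∀ j, FODef ar S (T j)) {m : ℕ} {x y : ℕ → M} (h : SD ar S m x y) :
    ET br T m x y := by
  obtain ⟨n', π, σ, h1, h2, h3, h4, h5, h6, h7, h8⟩ := exists_red x y m h.1
  have h9 : IS ar S n' (fun i => x (σ i)) (fun i => y (σ i)) := by
    refine ⟨h7, h8, ?_⟩
    intro a ha hz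
    rw [← Hold_mapA (v := x) (f := σ), ← Hold_mapA (v := y) (f := σ)]
    apply h.2 _ (WF_mapA.2 ha)
    intro z hz'
    simp only [mapA, List.mem_map] at hz'
    obtain ⟨t, ht, rfl⟩ := hz'
    exact h3 t (hz t ht)
  have h10 := ET_comp (ET_of_bf (IS_bfs' hN hT) h9) π h2
  exact ET_congr h5 h6 h10

/-- extension of a pair of tuples with the same type -/
theorem ET_forth (hN : ExtP ar S) (hT : ∀ j, FODef ar S (T j)) {m : ℕ} {x y : ℕ → M} (h : ET br T m x y)
    (x' : ℕ → M) (hx' : ∀ i < m, x' i = x i) :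
    ∃ y' : ℕ → M, (∀ i < m, y' i = y i) ∧ ET br T (m + 1) x' y' := by
  classical
  by_contra hcon
  push Not at hcon
  let _ := str br T
  have := finite_SP (ar := ar) (m + 1)
  have h1 : ∀ p : (Fin (m + 1) → Fin (m + 1) → Prop) × ({a // a ∈ atomsL ar (m + 1)} → Prop),
      ∃ φ : (lang br).Formula (Fin (m + 1)), φ.Realize (fun i : Fin (m + 1) => x' i) ∧
        ∀ y' : ℕ → M, (∀ i < m, y' i = y i) → SP ar S (m + 1) y' = p →
          ¬ φ.Realize (fun i : Fin (m + 1) => y' i) := by
    intro p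
    by_cases hp : ∃ y' : ℕ → M, (∀ i < m, y' i = y i) ∧ SP ar S (m + 1) y' = p
    · obtain ⟨y', hy1, hy2⟩ := hp
      obtain ⟨φ, hφ1, hφ2⟩ := not_ET_iff (hcon y' hy1)
      refine ⟨φ, hφ1, ?_⟩
      intro y'' _ hy4 hc
      exact hφ2 ((ET_of_SD hN hT (SD_of_SP (hy4.trans hy2.symm)) φ).1 hc)
    · exact ⟨⊤, Formula.realize_top.2 trivial, fun y' hy1 hy2 => absurd ⟨y', hy1, hy2⟩ hp⟩
  choose Φ hΦ1 hΦ2 using h1
  let Ψ : (lang br).Formula (Fin (m + 1)) := Formula.iInf Φ
  let g : Fin (m + 1) → Fin m ⊕ Unit := fun i => Fin.lastCases (Sum.inr ()) (fun i => Sum.inl i) i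
  let Ξ : (lang br).Formula (Fin m) := Formula.iExs Unit (Ψ.relabel g)
  have hg : ∀ (u : ℕ → M) (b : Unit → M), (Sum.elim (fun i : Fin m => u i) b) ∘ g =
      fun i : Fin (m + 1) => Function.update u m (b ()) i := by
    intro u b
    funext i
    simp only [Function.comp_apply, g]
    refine Fin.lastCases ?_ (fun i => ?_) i
    · simp
    · simp only [Fin.lastCases_castSucc, Sum.elim_inl, Fin.val_castSucc]
      rw [Function.update_of_ne (by have := i.2; omega)]
  have hx : Ξ.Realize (fun i : Fin m => x i) := by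
    rw [Formula.realize_iExs]
    refine ⟨fun _ => x' m, ?_⟩
    rw [Formula.realize_relabel, hg]
    have : (fun i : Fin (m + 1) => Function.update x m (x' m) i) = fun i : Fin (m + 1) => x' i := by
      funext i
      rcases Nat.lt_or_ge (i : ℕ) m with c | c
      · rw [Function.update_of_ne (by omega), hx' _ c]
      · have : (i : ℕ) = m := by have := i.2; omega
        rw [this, Function.update_self]
    rw [this, Formula.realize_iInf]
    exact hΦ1
  have hy := (h Ξ).1 hx
  rw [Formula.realize_iExs] at hy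
  obtain ⟨b, hb⟩ := hy
  rw [Formula.realize_relabel, hg, Formula.realize_iInf] at hb
  exact hΦ2 _ (Function.update y m (b ())) (fun i hi => Function.update_of_ne (by omega) _ _) rfl (hb _)

/-- first-order definability in the reduct: invariance under types -/
theorem fodef_iff [Nonempty M] (hN : ExtP ar S) (hT : ∀ j, FODef ar S (T j)) {n : ℕ} (R : (Fin n → M) → Prop) :
    FODef br T R ↔ ∀ x y : ℕ → M, ET br T n x y → R (fun i => x i) → R (fun i => y i) := by
  classical
  let _ := str br T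
  constructor
  · rintro ⟨φ, hφ⟩ x y hxy hx
    rw [hφ] at hx ⊢
    exact (hxy φ).1 hx
  · intro hinv
    have := finite_SP (ar := ar) n
    let D := (Fin n → Fin n → Prop) × ({a // a ∈ atomsL ar n} → Prop)
    let G := {p : D // ∃ x : ℕ → M, SP ar S n x = p ∧ R (fun i => x i)}
    let B := {p : D // ∃ x : ℕ → M, SP ar S n x = p ∧ ¬ R (fun i => x i)}
    have : Finite D := this
    have : Finite G := Subtype.finite
    have : Finite B := Subtype.finite
    have h1 : ∀ (p : G) (q : B), ∃ φ : (lang br).Formula (Fin n),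
        (∀ x : ℕ → M, SP ar S n x = p.1 → φ.Realize (fun i : Fin n => x i)) ∧
        (∀ x : ℕ → M, SP ar S n x = q.1 → ¬ φ.Realize (fun i : Fin n => x i)) := by
      rintro ⟨p, x, hx1, hx2⟩ ⟨q, y, hy1, hy2⟩
      obtain ⟨φ, hφ1, hφ2⟩ := not_ET_iff (T := T) (br := br) (m := n) (x := x) (y := y)
        (fun hc => hy2 (hinv x y hc hx2))
      refine ⟨φ, ?_, ?_⟩
      · intro x' hx'
        exact (ET_of_SD hN hT (SD_of_SP (hx1.trans hx'.symm)) φ).1 hφ1
      · intro y' hy' hc
        exact hφ2 ((ET_of_SD hN hT (SD_of_SP (hy'.trans hy1.symm)) φ).1 hc)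
    choose Φ hΦ1 hΦ2 using h1
    refine ⟨Formula.iSup (fun p : G => Formula.iInf (fun q : B => Φ p q)), ?_⟩
    intro v
    rw [Formula.realize_iSup]
    simp only [Formula.realize_iInf]
    let m0 : M := Classical.arbitrary M
    let z : ℕ → M := fun i => if h : i < n then v ⟨i, h⟩ else m0
    have hz : (fun i : Fin n => z i) = v := by
      funext i
      simp [z]
    rw [← hz]
    constructor
    · intro hR
      exact ⟨⟨SP ar S n z, z, rfl, hR⟩, fun q => hΦ1 _ q z rfl⟩
    · rintro ⟨p, hp⟩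
      by_contra hR
      exact hΦ2 p ⟨SP ar S n z, z, rfl, hR⟩ z rfl (hp _)

end EF50
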