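import Pool.Agent.EF39.QFDef
import Pool.Agent.EF50.Sem

/-!
# EF50: quantifier free definitions and legality
-/

set_option autoImplicit false

open FirstOrder Language

namespace EF50

open EF39

variable {l : ℕ} {ar : Fin l → ℕ} {M : Type} {S : ∀ i, (Fin (ar i) → M) → Prop}

/-- the extension property of homogeneous structures -/
theorem extP_of (h : FBHom ar S) : ExtP ar S := by
  constructor
  intro m m' v X hm hv hX hvX
  obtain ⟨w, hw1, hw2⟩ := hX
  obtain ⟨e, he1, he2⟩ := h.homog m (fun i => w i) (fun i => v i)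
    (fun i j hij => Fin.ext (hw1 (by simpa using i.2.trans_le hm) (by simpa using j.2.trans_le hm) hij))
    (fun i j hij => Fin.ext (hv (by simp) (by simp) hij)) (by
      intro i x
      have hm1 : ∀ z ∈ (atm i (fun t => (x t : ℕ))).2, z < m := by
        intro z hz
        rw [mem_atm] at hz
        obtain ⟨t, rfl⟩ := hz
        exact (x t).2
      have h2 := hw2 (atm i (fun t => (x t : ℕ))) (WF_atm _ _)
        (supp_subset_range.2 fun z hz => (hm1 z hz).trans_le hm)
      have h3 := hvX (atm i (fun t => (x t : ℕ))) (WF_atm _ _) (supp_subset_range.2 hm1)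
      rw [Hold_atm] at h2 h3
      exact h2.trans h3.symm)
  refine ⟨fun i => e (w i), fun i hi => he2 ⟨i, hi⟩, ?_, ?_⟩
  · intro i hi j hj hij
    exact hw1 hi hj (e.injective hij)
  · intro a ha hs
    rw [← hw2 a ha hs]
    obtain ⟨i, x, rfl⟩ := exists_atm ha
    rw [Hold_atm, Hold_atm]
    exact he1 i (fun t => w (x t))

/-! ## truth of formulas -/

/-- truth of an atom of `QF` in variables `< m`, at the tuple `h` of points -/
def EvB {l : ℕ} (ar : Fin l → ℕ) (m : ℕ) (h : List ℕ) (X : Atom → Prop) (a : Atom) : Prop :=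
  (a.1 = 0 ∧ a.2.length = 2 ∧ (∀ x ∈ a.2, x < m) ∧ h.getD (a.2.getD 0 0) 0 = h.getD (a.2.getD 1 0) 0) ∨
  (1 ≤ a.1 ∧ WF ar (a.1 - 1, a.2) ∧ (∀ x ∈ a.2, x < m) ∧ X (a.1 - 1, a.2.map (fun x => h.getD x 0)))

/-- truth of a formula -/
def EvF {l : ℕ} (ar : Fin l → ℕ) (m : ℕ) (h : List ℕ) (X : Atom → Prop) (φ : QF) : Prop :=
  ∃ c ∈ φ, ∀ b ∈ c, (EvB ar m h X b.2 ↔ b.1 = true)

theorem EvB_congr {m N : ℕ} {h : List ℕ} {X Y : Atom → Prop} {b : Atom} (hh : ∀ x < m, h.getD x 0 < N)
    (hXY : ∀ a ∈ atomsL ar N, (X a ↔ Y a)) : EvB ar m h X b ↔ EvB ar m h Y b := by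
  unfold EvB
  apply or_congr Iff.rfl
  apply and_congr_right
  intro _
  apply and_congr_right
  intro h1
  apply and_congr_right
  intro h2
  apply hXY
  rw [mem_atomsL]
  constructor
  · exact (WF_mapA (f := fun x => h.getD x 0) (a := (b.1 - 1, b.2))).2 h1
  · intro z hz
    rw [List.mem_map] at hz
    obtain ⟨x, hx, rfl⟩ := hz
    exact hh x (h2 x hx)

theorem EvF_congr {m N : ℕ} {h : List ℕ} {X Y : Atom → Prop} {φ : QF} (hh : ∀ x < m, h.getD x 0 < N)
    (hXY : ∀ a ∈ atomsL ar N, (X a ↔ Y a)) : EvF ar m h X φ ↔ EvF ar m h Y φ := by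
  unfold EvF
  apply exists_congr
  intro c
  apply and_congr_right
  intro _
  apply forall_congr'
  intro b
  apply imp_congr_right
  intro _
  rw [EvB_congr hh hXY]

theorem atom_sem {n N : ℕ} {v : ℕ → M} (hv : Set.InjOn v (Finset.range N)) {π : List ℕ}
    (hπ : ∀ x < n, π.getD x 0 < N) (b : Atom) :
    AtomTrue ar S (fun i : Fin n => v (π.getD i 0)) b ↔ EvB ar n π (Hold ar S v) b := by
  obtain ⟨i, g⟩ := b
  match i with
  | 0 =>
    simp only [AtomTrue, EvB, true_and]
    constructor
    · rintro ⟨a, b, rfl, h⟩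
      left
      refine ⟨rfl, ?_, ?_⟩
      · intro x hx
        simp only [List.mem_cons, List.not_mem_nil, or_false] at hx
        rcases hx with rfl | rfl
        · exact a.2
        · exact b.2
      · exact hv (by simpa using hπ a a.2) (by simpa using hπ b b.2) h
    · rintro (⟨h1, h2, h3⟩ | ⟨h1, _⟩)
      · match g, h1, h2, h3 with
        | [x, y], _, h2, h3 =>
          refine ⟨⟨x, h2 x (by simp)⟩, ⟨y, h2 y (by simp)⟩, rfl, ?_⟩
          exact congrArg v h3
      · exact absurd h1 (by decide)
  | i + 1 =>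
    simp only [AtomTrue, EvB]
    constructor
    · rintro ⟨h1, x, rfl, h2⟩
      right
      refine ⟨by omega, ?_, ?_, ?_⟩
      · refine ⟨h1, ?_⟩
        show (List.ofFn _).length = _
        simp only [List.length_ofFn]
        exact (arN_of_lt ar h1).symm
      · intro z hz
        simp only [List.mem_ofFn] at hz
        obtain ⟨t, rfl⟩ := hz
        exact (x t).2
      · refine ⟨h1, ?_, ?_⟩
        · show (List.map _ _).length = _
          simp
        · show S ⟨i, h1⟩ _
          convert h2 using 1
          funext t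
          simp only [Function.comp]
          have ht : (t : ℕ) < (List.map (fun x => π.getD x 0) (List.ofFn fun t => (x t : ℕ))).length := by simp
          rw [List.getD_eq_getElem _ _ ht]
          simp
    · rintro (⟨h1, _⟩ | ⟨_, h2, h3, h4, h5, h6⟩)
      · exact absurd h1 (by omega)
      · have h4' : i < l := h4
        have h5' : (List.map (fun x => π.getD x 0) g).length = ar ⟨i, h4'⟩ := h5
        have h6' : S ⟨i, h4'⟩ (fun t => v ((List.map (fun x => π.getD x 0) g).getD t 0)) := h6
        have hlen : g.length = ar ⟨i, h4'⟩ := by simpa using h5'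
        refine ⟨h4', fun t => ⟨g.getD t 0, h3 _ (getD_mem (by rw [hlen]; exact t.2))⟩, ?_, ?_⟩
        · apply List.ext_getElem
          · simp [hlen]
          · intro j h7 h8
            simp [h7]
        · convert h6' using 1
          funext t
          simp only [Function.comp]
          have ht : (t : ℕ) < g.length := by rw [hlen]; exact t.2
          have ht' : (t : ℕ) < (List.map (fun x => π.getD x 0) g).length := by simpa using ht
          rw [List.getD_eq_getElem _ _ ht', List.getElem_map]
          simp only [List.getD_eq_getElem _ _ ht]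

theorem qf_sem {n N : ℕ} {v : ℕ → M} (hv : Set.InjOn v (Finset.range N)) {π : List ℕ}
    (hπ : ∀ x < n, π.getD x 0 < N) (φ : QF) :
    QFTrue ar S φ (fun i : Fin n => v (π.getD i 0)) ↔ EvF ar n π (Hold ar S v) φ := by
  unfold QFTrue EvF
  apply exists_congr
  intro c
  apply and_congr_right
  intro _
  apply forall_congr'
  intro b
  apply imp_congr_right
  intro _
  rw [atom_sem hv hπ]

/-- every property of tuples gives a quantifier free formula, for the diagrams of the tuples with this property -/
theorem qf_def (ar : Fin l → ℕ) (S : ∀ i, (Fin (ar i) → M) → Prop) (m : ℕ) (Q : (ℕ → M) → Prop) :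
    ∃ φ : QF, ∀ (h : List ℕ) (X : Atom → Prop), EvF ar m h X φ ↔
      ∃ w : ℕ → M, Q w ∧ (∀ i < m, ∀ j < m, (w i = w j ↔ h.getD i 0 = h.getD j 0)) ∧
        ∀ a ∈ atomsL ar m, (Hold ar S w a ↔ X (mapA (fun x => h.getD x 0) a)) := by
  classical
  let B : List Atom := (listsOf 2 m).map (fun g => (0, g)) ++ (atomsL ar m).map (fun a => (a.1 + 1, a.2))
  let H : (ℕ → M) → Atom → Prop := fun w b =>
    (b.1 = 0 ∧ w (b.2.getD 0 0) = w (b.2.getD 1 0)) ∨ (1 ≤ b.1 ∧ Hold ar S w (b.1 - 1, b.2))
  let cl : (ℕ → M) → List (Bool × Atom) := fun w => B.map (fun b => (decide (H w b), b))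
  have hfin : {c | ∃ w, Q w ∧ cl w = c}.Finite := by
    apply ((List.finite_length_eq Bool B.length).image (fun s => s.zip B)).subset
    rintro c ⟨w, -, rfl⟩
    refine ⟨B.map (fun b => decide (H w b)), by simp, ?_⟩
    exact (map_pair_zip _ _).symm
  refine ⟨hfin.toFinset.toList, ?_⟩
  intro h X
  have h1 : EvF ar m h X hfin.toFinset.toList ↔ ∃ w, Q w ∧ ∀ b ∈ B, (EvB ar m h X b ↔ H w b) := by
    unfold EvF
    simp only [Finset.mem_toList, Set.Finite.mem_toFinset, Set.mem_ofPred_eq]
    constructor
    · rintro ⟨c, ⟨w, hw, rfl⟩, hc⟩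
      refine ⟨w, hw, ?_⟩
      intro b hb
      have := hc (decide (H w b), b) (List.mem_map.2 ⟨b, hb, rfl⟩)
      simpa using this
    · rintro ⟨w, hw, hc⟩
      refine ⟨_, ⟨w, hw, rfl⟩, ?_⟩
      intro x hx
      simp only [cl, List.mem_map] at hx
      obtain ⟨b, hb, rfl⟩ := hx
      simpa using hc b hb
  rw [h1]
  apply exists_congr
  intro w
  apply and_congr_right
  intro _
  constructor
  · intro hB
    constructor
    · intro i hi j hj
      have h2 := hB (0, [i, j]) (by
        simp only [B, List.mem_append, List.mem_map]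
        refine Or.inl ⟨[i, j], ?_, rfl⟩
        rw [mem_listsOf]
        simp [hi, hj])
      simp only [EvB, H] at h2
      simp only [List.length_cons, List.length_nil, true_and] at h2
      simp [hi, hj] at h2
      simp only [List.getD_eq_getElem?_getD]
      exact h2.symm
    · intro a ha
      have ha' := (mem_atomsL ar).1 ha
      have h2 := hB (a.1 + 1, a.2) (by
        simp only [B, List.mem_append, List.mem_map]
        exact Or.inr ⟨a, ha, rfl⟩)
      simp only [EvB, H] at h2
      have e1 : a.1 + 1 ≠ 0 := by omega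
      have e3 : 1 ≤ a.1 + 1 := by omega
      simp only [e1, e3, false_and, false_or, true_and, Nat.add_sub_cancel] at h2
      have e4 : WF ar (a.1, a.2) := ha'.1
      simp only [e4, true_and] at h2
      constructor
      · intro h3
        exact (h2.2 h3).2
      · intro h3
        exact h2.1 ⟨fun x hx => ha'.2 x hx, h3⟩
  · rintro ⟨hE, hA⟩ b hb
    simp only [B, List.mem_append, List.mem_map] at hb
    rcases hb with ⟨g, hg, rfl⟩ | ⟨a, ha, rfl⟩
    · rw [mem_listsOf] at hg
      obtain ⟨hg1, hg2⟩ := hg
      match g, hg1, hg2 with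
      | [i, j], _, hg2 =>
        have hi : i < m := hg2 i (by simp)
        have hj : j < m := hg2 j (by simp)
        have h2 := hE i hi j hj
        simp only [EvB, H, List.length_cons, List.length_nil, true_and]
        simp [hi, hj]
        simp only [List.getD_eq_getElem?_getD] at h2
        exact h2.symm
    · have ha' := (mem_atomsL ar).1 ha
      simp only [EvB, H]
      have e1 : a.1 + 1 ≠ 0 := by omega
      have e3 : 1 ≤ a.1 + 1 := by omega
      simp only [e1, e3, false_and, false_or, true_and, Nat.add_sub_cancel]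
      have e4 : WF ar (a.1, a.2) := ha'.1
      simp only [e4, true_and]
      constructor
      · rintro ⟨_, h3⟩
        exact (hA a ha).2 h3
      · intro h3
        exact ⟨fun x hx => ha'.2 x hx, (hA a ha).1 h3⟩

/-- quantifier elimination -/
theorem qf_of_fodef [Nonempty M] (hE : ExtP ar S) {n : ℕ} {R : (Fin n → M) → Prop} (h : FODef ar S R) :
    ∃ φ : QF, ∀ v, R v ↔ QFTrue ar S φ v := by
  classical
  obtain ⟨ψ, hψ⟩ := h
  have hT : ∀ j, FODef ar S (S j) := by
    intro j
    let _ := str ar S
    let Rj : (lang ar).Relations (ar j) := ⟨j, rfl⟩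
    refine ⟨Rj.formula (fun i => Term.var i), ?_⟩
    intro v
    rw [Formula.realize_rel]
    rfl
  obtain ⟨φ, hφ⟩ := qf_def ar S n (fun w => R (fun i => w i))
  refine ⟨φ, ?_⟩
  intro v
  let m0 : M := Classical.arbitrary M
  let x : ℕ → M := fun i => if h : i < n then v ⟨i, h⟩ else m0
  have hx : (fun i : Fin n => x i) = v := by
    funext i
    simp [x]
  -- reduce to an injective tuple
  obtain ⟨n', π, σ, h1, h2, h3, h4, h5, -, h7, -⟩ := exists_red x x n (fun i _ j _ => Iff.rfl)
  let z : ℕ → M := fun i => x (σ i)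
  let h : List ℕ := (List.range n).map π
  have hh : ∀ i < n, h.getD i 0 = π i := by
    intro i hi
    rw [List.getD_eq_getElem _ _ (by simpa [h] using hi)]
    simp [h]
  have hzx : (fun i : Fin n => z (h.getD i 0)) = fun i : Fin n => x i := by
    funext i
    rw [hh i i.2]
    exact h5 i i.2
  have h6 := qf_sem (ar := ar) (S := S) (n := n) h7 (π := h) (fun i hi => by rw [hh i hi]; exact h2 i hi) φ
  rw [← hx]
  have h6' : QFTrue ar S φ (fun i : Fin n => x i) ↔ EvF ar n h (Hold ar S z) φ := by
    rw [← hzx]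
    exact h6
  rw [h6', hφ]
  constructor
  · intro hR
    refine ⟨x, hR, ?_, ?_⟩
    · intro i hi j hj
      rw [hh i hi, hh j hj]
      constructor
      · intro hij
        rw [← h5 i hi, ← h5 j hj] at hij
        exact h7 (by simpa using h2 i hi) (by simpa using h2 j hj) hij
      · intro hij
        rw [← h5 i hi, ← h5 j hj, hij]
    · intro a ha
      have ha' := (mem_atomsL ar).1 ha
      rw [Hold_mapA]
      apply Hold_congr
      intro t ht
      rw [hh t (ha'.2 t ht)]
      exact (h5 t (ha'.2 t ht)).symm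
  · rintro ⟨w, hw, hw1, hw2⟩
    have hsd : SD ar S n w x := by
      constructor
      · intro i hi j hj
        rw [hw1 i hi j hj, hh i hi, hh j hj]
        constructor
        · intro hij
          rw [← h5 i hi, ← h5 j hj, hij]
        · intro hij
          rw [← h5 i hi, ← h5 j hj] at hij
          exact h7 (by simpa using h2 i hi) (by simpa using h2 j hj) hij
      · intro a ha hz
        rw [hw2 a ((mem_atomsL ar).2 ⟨ha, hz⟩), Hold_mapA]
        apply Hold_congr
        intro t ht
        rw [hh t (hz t ht)]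
        exact h5 t (hz t ht)
    have h8 := ET_of_SD (T := S) (br := ar) hE hT hsd ψ
    rw [hψ] at hw ⊢
    exact h8.1 hw

end EF50
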