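import Pool.Agent.EF50.Comp

/-!
# EF50: the decision procedures
-/

set_option autoImplicit false

open FirstOrder Language

namespace EF50

open EF39

section
variable {α : Type} [Primcodable α]

theorem re_exists {p : α → ℕ → Prop} (hp : PrimrecPred (fun x : α × ℕ => p x.1 x.2)) :
    REPred (fun a => ∃ r, p a r) := by
  classical
  have h0 : ComputablePred (fun x : α × ℕ => p x.1 x.2) := hp.computablePred
  have h1 : Computable (fun x : α × ℕ => decide (p x.1 x.2)) := h0.decide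
  have h2 : Partrec (fun a : α => Nat.rfind (fun n => Part.some (decide (p a n)))) := by
    apply Partrec.rfind
    exact h1.partrec
  refine h2.dom_re.of_eq fun a => ?_
  refine Nat.rfind_dom.trans ?_
  constructor
  · rintro ⟨n, hn, -⟩
    exact ⟨n, by simpa using hn⟩
  · rintro ⟨n, hn⟩
    exact ⟨n, by simpa using hn, fun _ => trivial⟩

end

section
variable {l : ℕ} {ar : Fin l → ℕ} {M : Type} {S : ∀ i, (Fin (ar i) → M) → Prop}

theorem FODef_congr {k : ℕ} {br : Fin k → ℕ} {T : ∀ j, (Fin (br j) → M) → Prop} {n : ℕ}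
    {R R' : (Fin n → M) → Prop} (h : ∀ v, R v ↔ R' v) (hR : FODef br T R) : FODef br T R' := by
  obtain ⟨φ, hφ⟩ := hR
  exact ⟨φ, fun v => (h v).symm.trans (hφ v)⟩

theorem FODef_self {k : ℕ} (br : Fin k → ℕ) (T : ∀ j, (Fin (br j) → M) → Prop) (j : Fin k) :
    FODef br T (T j) := by
  let _ := str br T
  let Rj : (lang br).Relations (br j) := ⟨j, rfl⟩
  refine ⟨Rj.formula (fun i => Term.var i), ?_⟩
  intro v
  rw [Formula.realize_rel]
  rfl

/-- the type in the first structure determines the type in the second one -/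
theorem ET_of_ET (hE : ExtP ar S) {k k' : ℕ} {br : Fin k → ℕ} {T : ∀ j, (Fin (br j) → M) → Prop}
    {br' : Fin k' → ℕ} {T' : ∀ j, (Fin (br' j) → M) → Prop} (hT : ∀ j, FODef ar S (T j))
    (hTT : ∀ j, FODef br T (T' j)) {n : ℕ} {x y : ℕ → M} (h : ET br T n x y) : ET br' T' n x y := by
  have hI : BFS br' T' (fun N v w => Set.InjOn v (Finset.range N) ∧ Set.InjOn w (Finset.range N) ∧
      ET br T N v w) := by
    constructor
    · exact fun h => h.1
    · exact fun h => h.2.1
    · intro N v w h j x hx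
      obtain ⟨φ, hφ⟩ := hTT j
      rw [hφ, hφ]
      let _ := str br T
      have h1 := h.2.2 (φ.relabel (fun t : Fin (br' j) => (⟨x t, hx t⟩ : Fin N)))
      rw [Formula.realize_relabel, Formula.realize_relabel] at h1
      exact h1
    · intro N v w h a ha
      have e1 : ∀ i < N, Function.update v N a i = v i := fun i hi => by
        rw [Function.update_of_ne (by omega)]
      have hinj : Set.InjOn (Function.update v N a) (Finset.range (N + 1)) :=
        injOn_succ h.1 e1 (fun i hi => by rw [Function.update_self]; exact ha i hi)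
      obtain ⟨w', h1, h2⟩ := ET_forth hE hT h.2.2 _ e1
      exact ⟨_, w', e1, h1, Function.update_self _ _ _, hinj, ET_injOn h2 hinj, h2⟩
    · intro N v w h a ha
      have e1 : ∀ i < N, Function.update w N a i = w i := fun i hi => by
        rw [Function.update_of_ne (by omega)]
      have hinj : Set.InjOn (Function.update w N a) (Finset.range (N + 1)) :=
        injOn_succ h.2.1 e1 (fun i hi => by rw [Function.update_self]; exact ha i hi)
      obtain ⟨v', h1, h2⟩ := ET_forth hE hT h.2.2.symm _ e1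
      exact ⟨v', _, h1, e1, Function.update_self _ _ _, ET_injOn h2 hinj, hinj, h2.symm⟩
  obtain ⟨n', π, σ, h1, h2, h3, h4, h5, h6, h7, h8⟩ := exists_red x y n (fun i hi j hj => ET_eq h hi hj)
  have h9 : ET br' T' n' (fun i => x (σ i)) (fun i => y (σ i)) := ET_of_bf hI ⟨h7, h8, ET_comp h σ h3⟩
  exact ET_congr h5 h6 (ET_comp h9 π h2)

/-- definability is transitive -/
theorem FODef_trans [Nonempty M] (hE : ExtP ar S) {k k' : ℕ} {br : Fin k → ℕ}
    {T : ∀ j, (Fin (br j) → M) → Prop} {br' : Fin k' → ℕ} {T' : ∀ j, (Fin (br' j) → M) → Prop}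
    (hT : ∀ j, FODef ar S (T j)) (hT' : ∀ j, FODef ar S (T' j)) (hTT : ∀ j, FODef br T (T' j)) {n : ℕ}
    {R : (Fin n → M) → Prop} (hR : FODef br' T' R) : FODef br T R := by
  rw [fodef_iff hE hT]
  rw [fodef_iff hE hT'] at hR
  exact fun x y h => hR x y (ET_of_ET hE hT hTT h)

/-- quantifier free formulas define first-order definable relations -/
theorem fodef_of_qf [Nonempty M] (hE : ExtP ar S) {n : ℕ} (φ : QF) :
    FODef ar S (fun v : Fin n → M => QFTrue ar S φ v) := by
  rw [fodef_iff hE (FODef_self ar S)]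
  intro x y h
  unfold QFTrue
  rintro ⟨c, hc, hb⟩
  refine ⟨c, hc, ?_⟩
  intro b hbc
  rw [← hb b hbc]
  obtain ⟨i, g⟩ := b.2
  match i with
  | 0 =>
    simp only [AtomTrue]
    apply exists_congr
    intro a
    apply exists_congr
    intro b
    rw [ET_eq h a.2 b.2]
  | i + 1 =>
    simp only [AtomTrue]
    apply exists_congr
    intro hi
    apply exists_congr
    intro z
    apply and_congr_right
    intro _
    exact (ET_rel h ⟨i, hi⟩ (fun t => (z t : ℕ)) (fun t => (z t).2)).symm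

variable [Nonempty M]

theorem relL_fodef (hE : ExtP ar S) (P : List (ℕ × QF)) (j : Fin P.length) : FODef ar S (relL ar S P j) :=
  fodef_of_qf hE _

omit [Nonempty M] in
theorem DefL_mem {P : List (ℕ × QF)} {y : ℕ × QF} (hy : y ∈ P) : DefL ar S P y := by
  obtain ⟨j, hj, rfl⟩ := List.mem_iff_getElem.1 hy
  exact FODef_self (brL P) (relL ar S P) ⟨j, hj⟩

theorem DefL_trans (hE : ExtP ar S) {P Q : List (ℕ × QF)} (h : ∀ y ∈ Q, DefL ar S P y) {x : ℕ × QF}
    (hx : DefL ar S Q x) : DefL ar S P x :=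
  FODef_trans hE (relL_fodef hE P) (relL_fodef hE Q) (fun j => h _ (List.get_mem Q j)) hx

/-- definability in a family, given by a list of formulas -/
theorem FODef_iff_DefL (hE : ExtP ar S) {k : ℕ} {br : Fin k → ℕ} {T : ∀ j, (Fin (br j) → M) → Prop}
    (hT : ∀ j, FODef ar S (T j)) {th : Fin k → QF} (hth : ∀ j v, T j v ↔ QFTrue ar S (th j) v) {n : ℕ}
    (R : (Fin n → M) → Prop) :
    FODef br T R ↔ FODef (brL (List.ofFn fun j => (br j, th j))) (relL ar S (List.ofFn fun j => (br j, th j))) R := by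
  set P : List (ℕ × QF) := List.ofFn fun j => (br j, th j) with hP
  have h1 : ∀ j, FODef (brL P) (relL ar S P) (T j) := by
    intro j
    have h2 : (br j, th j) ∈ P := by
      rw [hP, List.mem_ofFn]
      exact ⟨j, rfl⟩
    exact FODef_congr (fun v => (hth j v).symm) (DefL_mem (ar := ar) (S := S) h2)
  have h3 : ∀ i, FODef br T (relL ar S P i) := by
    intro i
    have h4 : P.get i ∈ P := List.get_mem P i
    have h5 : ∃ j, P.get i = (br j, th j) := by
      generalize P.get i = y at h4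
      rw [hP, List.mem_ofFn] at h4
      obtain ⟨j, hj⟩ := h4
      exact ⟨j, hj.symm⟩
    obtain ⟨j, hj⟩ := h5
    have h6 : ∀ y : ℕ × QF, y = (br j, th j) → FODef br T (fun v : Fin y.1 → M => QFTrue ar S y.2 v) := by
      rintro y rfl
      exact FODef_congr (hth j) (FODef_self br T j)
    exact h6 _ hj
  constructor
  · exact FODef_trans hE (relL_fodef hE P) hT h1
  · exact FODef_trans hE hT (relL_fodef hE P) h3

/-- all members of `Q` are definable from `P`, with a bound for the games -/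
def IB {l : ℕ} (ar : Fin l → ℕ) {M : Type} (S : ∀ i, (Fin (ar i) → M) → Prop) (P Q : List (ℕ × QF)) (R : ℕ) : Prop :=
  ∀ y ∈ Q, ∃ r ∈ List.range (R + 1), Inv ar S P y r

theorem exists_IB (hE : ExtP ar S) (P Q : List (ℕ × QF)) : (∀ y ∈ Q, DefL ar S P y) ↔ ∃ R, IB ar S P Q R := by
  classical
  constructor
  · intro h
    have h1 : ∀ y, ∃ r, y ∈ Q → Inv ar S P y r := by
      intro y
      by_cases hy : y ∈ Q
      · obtain ⟨r, hr⟩ := (defL_iff hE (relL_fodef hE P) y).1 (h y hy)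
        exact ⟨r, fun _ => hr⟩
      · exact ⟨0, fun h => absurd h hy⟩
    choose f hf using h1
    refine ⟨(Q.map f).sum, ?_⟩
    intro y hy
    refine ⟨f y, ?_, hf y hy⟩
    rw [List.mem_range, Nat.lt_succ_iff]
    exact List.single_le_sum (by simp) _ (List.mem_map.2 ⟨y, hy, rfl⟩)
  · rintro ⟨R, hR⟩ y hy
    obtain ⟨r, -, hr⟩ := hR y hy
    exact (defL_iff hE (relL_fodef hE P) y).2 ⟨r, hr⟩

omit [Nonempty M] in
theorem IB_le {P Q : List (ℕ × QF)} {R R' : ℕ} (hR : R ≤ R') (h : IB ar S P Q R) : IB ar S P Q R' := by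
  intro y hy
  obtain ⟨r, hr, h1⟩ := h y hy
  rw [List.mem_range] at hr
  exact ⟨r, List.mem_range.2 (by omega), h1⟩

section
variable {α : Type} [Primcodable α]

omit [Nonempty M] in
theorem pp_IB (la : List QF) (hla : ∀ (N : ℕ) (X : List Atom), LD ar S N X ↔ LegT ar la N X)
    {P Q : α → List (ℕ × QF)} {R : α → ℕ} (hP : Primrec P) (hQ : Primrec Q) (hR : Primrec R) :
    PrimrecPred (fun a => IB ar S (P a) (Q a) (R a)) := by
  unfold IB
  apply pp_forall hQ
  apply pp_exists (pr_range (pr_add (hR.comp Primrec.fst) (Primrec.const 1)))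
  exact pp_Inv ar la hla ((hP.comp Primrec.fst).comp Primrec.fst) (pr_snd Primrec.fst) Primrec.snd

end

/-- definability is recursively enumerable, uniformly -/
theorem defL_re (h : FBHom ar S) (P0 : List (ℕ × QF)) :
    REPred (fun x : List (ℕ × QF) × (ℕ × QF) => DefL ar S (P0 ++ x.1) x.2) := by
  obtain ⟨la, hla⟩ := exists_la h
  have hE := extP_of h
  have h1 : REPred (fun x : List (ℕ × QF) × (ℕ × QF) => ∃ r, Inv ar S (P0 ++ x.1) x.2 r) :=
    re_exists (pp_Inv ar la hla (pr_append (Primrec.const P0) (pr_fst Primrec.fst)) (pr_snd Primrec.fst)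
      Primrec.snd)
  exact h1.of_eq fun x => (defL_iff hE (relL_fodef hE (P0 ++ x.1)) x.2).symm

/-- the complement is recursively enumerable if there are finitely many reducts above `P0` -/
theorem not_defL_re (h : FBHom ar S) (P0 : List (ℕ × QF)) {L : List (List (ℕ × QF))}
    (hL : ∀ P, ∃ Q ∈ L, (∀ y ∈ P0 ++ P, DefL ar S Q y) ∧ ∀ y ∈ Q, DefL ar S (P0 ++ P) y) :
    REPred (fun x : List (ℕ × QF) × (ℕ × QF) => ¬ DefL ar S (P0 ++ x.1) x.2) := by
  classical
  obtain ⟨la, hla⟩ := exists_la h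
  have hE := extP_of h
  -- pairs of lists which are not interdefinable
  let Bad : List (List (ℕ × QF) × List (ℕ × QF)) := (L.flatMap (fun Q => L.map (fun Q' => (Q, Q')))).filter
    (fun q => decide (¬ ((∀ y ∈ q.2, DefL ar S q.1 y) ∧ ∀ y ∈ q.1, DefL ar S q.2 y)))
  have hBad : ∀ q, q ∈ Bad ↔ (q.1 ∈ L ∧ q.2 ∈ L) ∧ ¬ ((∀ y ∈ q.2, DefL ar S q.1 y) ∧ ∀ y ∈ q.1, DefL ar S q.2 y) := by
    intro q
    simp only [Bad, List.mem_filter, List.mem_flatMap, List.mem_map, decide_eq_true_eq]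
    apply and_congr_left
    intro _
    constructor
    · rintro ⟨a, h1, b, h2, rfl⟩
      exact ⟨h1, h2⟩
    · rintro ⟨h1, h2⟩
      exact ⟨q.1, h1, q.2, h2, rfl⟩
  have h1 : REPred (fun x : List (ℕ × QF) × (ℕ × QF) => ∃ R, ∃ q ∈ Bad,
      (IB ar S (P0 ++ x.1) q.1 R ∧ IB ar S q.1 (P0 ++ x.1) R) ∧
        (IB ar S (P0 ++ (x.1 ++ [x.2])) q.2 R ∧ IB ar S q.2 (P0 ++ (x.1 ++ [x.2])) R)) := by
    apply re_exists
    apply pp_exists (Primrec.const Bad)
    have pP' : Primrec (fun y : ((List (ℕ × QF) × (ℕ × QF)) × ℕ) × (List (ℕ × QF) × List (ℕ × QF)) => y.1.1.1) :=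
      pr_fst (pr_fst Primrec.fst)
    have pP : Primrec (fun y : ((List (ℕ × QF) × (ℕ × QF)) × ℕ) × (List (ℕ × QF) × List (ℕ × QF)) =>
      P0 ++ y.1.1.1) := pr_append (Primrec.const P0) pP'
    have px : Primrec (fun y : ((List (ℕ × QF) × (ℕ × QF)) × ℕ) × (List (ℕ × QF) × List (ℕ × QF)) => y.1.1.2) :=
      pr_snd (pr_fst Primrec.fst)
    have pR : Primrec (fun y : ((List (ℕ × QF) × (ℕ × QF)) × ℕ) × (List (ℕ × QF) × List (ℕ × QF)) => y.1.2) :=
      pr_snd Primrec.fst
    have p1 : Primrec (fun y : ((List (ℕ × QF) × (ℕ × QF)) × ℕ) × (List (ℕ × QF) × List (ℕ × QF)) => y.2.1) :=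
      pr_fst Primrec.snd
    have p2 : Primrec (fun y : ((List (ℕ × QF) × (ℕ × QF)) × ℕ) × (List (ℕ × QF) × List (ℕ × QF)) => y.2.2) :=
      pr_snd Primrec.snd
    have pPx := pr_append (Primrec.const P0) (pr_append pP' (pr_cons px (Primrec.const [])))
    exact pp_and (pp_and (pp_IB la hla pP p1 pR) (pp_IB la hla p1 pP pR))
      (pp_and (pp_IB la hla pPx p2 pR) (pp_IB la hla p2 pPx pR))
  refine h1.of_eq fun x => ?_
  obtain ⟨P, x⟩ := x
  simp only
  have hmem : ∀ y ∈ P0 ++ (P ++ [x]), y ∈ P0 ++ P ∨ y = x := by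
    intro y hy
    simp only [List.mem_append, List.mem_singleton] at hy ⊢
    tauto
  have hmem' : ∀ y ∈ P0 ++ P, y ∈ P0 ++ (P ++ [x]) := by
    intro y hy
    simp only [List.mem_append] at hy ⊢
    tauto
  constructor
  · rintro ⟨R, q, hq, ⟨h2, h3⟩, h4, h5⟩ hdef
    rw [hBad] at hq
    apply hq.2
    have a1 := (exists_IB hE _ _).2 ⟨R, h2⟩
    have a2 := (exists_IB hE _ _).2 ⟨R, h3⟩
    have a3 := (exists_IB hE _ _).2 ⟨R, h4⟩
    have a4 := (exists_IB hE _ _).2 ⟨R, h5⟩
    have b1 : ∀ y ∈ P0 ++ (P ++ [x]), DefL ar S (P0 ++ P) y := by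
      intro y hy
      rcases hmem y hy with h6 | rfl
      · exact DefL_mem h6
      · exact hdef
    constructor
    · intro y hy
      exact DefL_trans hE a2 (DefL_trans hE b1 (a3 y hy))
    · intro y hy
      exact DefL_trans hE a4 (DefL_trans hE (fun z hz => DefL_mem (hmem' z hz)) (a1 y hy))
  · intro hdef
    obtain ⟨Q1, hQ1, h2, h3⟩ := hL P
    obtain ⟨Q2, hQ2, h4, h5⟩ := hL (P ++ [x])
    obtain ⟨R1, hR1⟩ := (exists_IB hE _ _).1 h2
    obtain ⟨R2, hR2⟩ := (exists_IB hE _ _).1 h3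
    obtain ⟨R3, hR3⟩ := (exists_IB hE _ _).1 h4
    obtain ⟨R4, hR4⟩ := (exists_IB hE _ _).1 h5
    refine ⟨R1 + R2 + R3 + R4, (Q1, Q2), ?_, ⟨IB_le (by omega) hR2, IB_le (by omega) hR1⟩,
      IB_le (by omega) hR4, IB_le (by omega) hR3⟩
    rw [hBad]
    refine ⟨⟨hQ1, hQ2⟩, ?_⟩
    rintro ⟨h6, -⟩
    apply hdef
    exact DefL_trans hE h3 (DefL_trans hE h6 (h4 x (by simp)))

theorem computable_of_finAbove (h : FBHom ar S) (P0 : List (ℕ × QF)) (hf : FinAbove ar S P0) :
    ComputablePred (fun x : List (ℕ × QF) × (ℕ × QF) => DefL ar S (P0 ++ x.1) x.2) := by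
  classical
  rw [ComputablePred.computable_iff_re_compl_re']
  refine ⟨defL_re h P0, ?_⟩
  have hE := extP_of h
  obtain ⟨m, p, cr, R, hR, hall⟩ := hf
  have hth : ∀ i j, ∃ φ : QF, ∀ v, R i j v ↔ QFTrue ar S φ v := fun i j => qf_of_fodef hE (hR i j)
  choose th hth using hth
  apply not_defL_re h P0 (L := List.ofFn fun i => List.ofFn fun j => (cr i j, th i j))
  intro P
  obtain ⟨i, h1, h2⟩ := hall (P0 ++ P).length (brL (P0 ++ P)) (relL ar S (P0 ++ P)) (relL_fodef hE (P0 ++ P))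
    (fun j => DefL_mem (ar := ar) (S := S) (List.mem_append_left _ (List.get_mem P0 j)))
  refine ⟨List.ofFn fun j => (cr i j, th i j), ?_, ?_, ?_⟩
  · rw [List.mem_ofFn]
    exact ⟨i, rfl⟩
  · intro y hy
    obtain ⟨j, hj, rfl⟩ := List.mem_iff_getElem.1 hy
    exact (FODef_iff_DefL hE (hR i) (hth i) _).1 (h1 ⟨j, hj⟩)
  · intro y hy
    rw [List.mem_ofFn] at hy
    obtain ⟨j, rfl⟩ := hy
    exact FODef_congr (hth i j) (h2 j)

end

end EF50
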