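import Pool.Agent.EF50.Ev

/-!
# EF50: the game on diagrams
-/

set_option autoImplicit false

open FirstOrder Language

namespace EF50

open EF39

section
variable {l : ℕ} (ar : Fin l → ℕ) {M : Type} (S : ∀ i, (Fin (ar i) → M) → Prop)

/-- the list of the atoms in variables `< N` which hold at `v` -/
noncomputable def Dg (N : ℕ) (v : ℕ → M) : List Atom := by
  classical
  exact (atomsL ar N).filter (fun a => decide (Hold ar S v a))

/-- the relations in the list `P` agree on the diagrams `X` and `Y` of `N` points -/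
def Base (P : List (ℕ × QF)) (N : ℕ) (X Y : List Atom) : Prop :=
  ∀ p ∈ P, ∀ h ∈ listsOf p.1 N, (EvF ar p.1 h (fun a => a ∈ X) p.2 ↔ EvF ar p.1 h (fun a => a ∈ Y) p.2)

/-- `X'` extends the diagram `X` of `N` points -/
def ExtD (N : ℕ) (X X' : List Atom) : Prop := ∀ a ∈ atomsL ar N, (a ∈ X' ↔ a ∈ X)

/-- diagrams which embed in `(M; S)` -/
def LD (N : ℕ) (X : List Atom) : Prop := Leg ar S (fun a => a ∈ X) (Finset.range N)

/-- equivalence of diagrams for the game with `r` rounds -/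
def WR (P : List (ℕ × QF)) : ℕ → ℕ → List Atom → List Atom → Prop
  | 0, N, X, Y => Base ar P N X Y
  | r + 1, N, X, Y => Base ar P N X Y ∧
      (∀ X' ∈ subs (atomsL ar (N + 1)), LD ar S (N + 1) X' → ExtD ar N X X' →
        ∃ Y' ∈ subs (atomsL ar (N + 1)), LD ar S (N + 1) Y' ∧ ExtD ar N Y Y' ∧ WR P r (N + 1) X' Y') ∧
      (∀ Y' ∈ subs (atomsL ar (N + 1)), LD ar S (N + 1) Y' → ExtD ar N Y Y' →
        ∃ X' ∈ subs (atomsL ar (N + 1)), LD ar S (N + 1) X' ∧ ExtD ar N X X' ∧ WR P r (N + 1) X' Y')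

end

section
variable {l : ℕ} {ar : Fin l → ℕ} {M : Type} {S : ∀ i, (Fin (ar i) → M) → Prop}

theorem mem_Dg {N : ℕ} {v : ℕ → M} {a : Atom} : a ∈ Dg ar S N v ↔ a ∈ atomsL ar N ∧ Hold ar S v a := by
  classical
  simp [Dg]

theorem mem_Dg' {N : ℕ} {v : ℕ → M} {a : Atom} (h : a ∈ atomsL ar N) : a ∈ Dg ar S N v ↔ Hold ar S v a := by
  rw [mem_Dg]
  exact and_iff_right h

theorem Dg_mem_subs (N : ℕ) (v : ℕ → M) : Dg ar S N v ∈ subs (atomsL ar N) := by
  classical
  rw [mem_subs]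
  exact List.filter_sublist

theorem supp_iff {a : Atom} {N : ℕ} (ha : WF ar a) : supp a ⊆ Finset.range N ↔ a ∈ atomsL ar N := by
  rw [supp_subset_range, mem_atomsL]
  exact (and_iff_right ha).symm

theorem Dg_LD {N : ℕ} {v : ℕ → M} (hv : Set.InjOn v (Finset.range N)) : LD ar S N (Dg ar S N v) :=
  ⟨v, hv, fun _ ha hs => (mem_Dg' ((supp_iff ha).1 hs)).symm⟩

theorem listsOf_getD {m N : ℕ} {h : List ℕ} (hh : h ∈ listsOf m N) : ∀ x < m, h.getD x 0 < N := by
  rw [mem_listsOf] at hh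
  intro x hx
  exact hh.2 _ (getD_mem (by rw [hh.1]; exact hx))

theorem EvF_Dg {N m : ℕ} {v : ℕ → M} {h : List ℕ} (hh : ∀ x < m, h.getD x 0 < N) (φ : QF) :
    EvF ar m h (fun a => a ∈ Dg ar S N v) φ ↔ EvF ar m h (Hold ar S v) φ :=
  EvF_congr hh fun _ ha => mem_Dg' ha

theorem qf_Dg {n N : ℕ} {v : ℕ → M} (hv : Set.InjOn v (Finset.range N)) {h : List ℕ}
    (hh : ∀ x < n, h.getD x 0 < N) (φ : QF) :
    QFTrue ar S φ (fun i : Fin n => v (h.getD i 0)) ↔ EvF ar n h (fun a => a ∈ Dg ar S N v) φ :=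
  (qf_sem hv hh φ).trans (EvF_Dg hh φ).symm

theorem WR_succ {P : List (ℕ × QF)} {r N : ℕ} {X Y : List Atom} (h : WR ar S P (r + 1) N X Y) :
    WR ar S P r N X Y := by
  induction r generalizing N X Y with
  | zero => exact h.1
  | succ r ih =>
    obtain ⟨h1, h2, h3⟩ := h
    refine ⟨h1, ?_, ?_⟩
    · intro X' h4 h5 h6
      obtain ⟨Y', h7, h8, h9, h10⟩ := h2 X' h4 h5 h6
      exact ⟨Y', h7, h8, h9, ih h10⟩
    · intro Y' h4 h5 h6
      obtain ⟨X', h7, h8, h9, h10⟩ := h3 Y' h4 h5 h6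
      exact ⟨X', h7, h8, h9, ih h10⟩

theorem WR_le {P : List (ℕ × QF)} {r r' N : ℕ} {X Y : List Atom} (hr : r ≤ r') (h : WR ar S P r' N X Y) :
    WR ar S P r N X Y := by
  induction hr with
  | refl => exact h
  | step _ ih => exact ih (WR_succ h)

/-- the same atoms in variables `< N` -/
def AgD {l : ℕ} (ar : Fin l → ℕ) (N : ℕ) (X Y : List Atom) : Prop := ∀ a ∈ atomsL ar N, (a ∈ X ↔ a ∈ Y)

theorem AgD.symm {N : ℕ} {X Y : List Atom} (h : AgD ar N X Y) : AgD ar N Y X := fun a ha => (h a ha).symm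

theorem Base_congr {P : List (ℕ × QF)} {N : ℕ} {X Y X2 Y2 : List Atom} (hX : AgD ar N X X2) (hY : AgD ar N Y Y2)
    (h : Base ar P N X Y) : Base ar P N X2 Y2 := by
  intro p hp g hg
  have hg' := listsOf_getD hg
  rw [← EvF_congr hg' hX, ← EvF_congr hg' hY]
  exact h p hp g hg

theorem WR_congr {P : List (ℕ × QF)} {r N : ℕ} {X Y X2 Y2 : List Atom} (hX : AgD ar N X X2) (hY : AgD ar N Y Y2)
    (h : WR ar S P r N X Y) : WR ar S P r N X2 Y2 := by
  cases r with
  | zero => exact Base_congr hX hY h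
  | succ r =>
    obtain ⟨h1, h2, h3⟩ := h
    refine ⟨Base_congr hX hY h1, ?_, ?_⟩
    · intro X' h4 h5 h6
      obtain ⟨Y', h7, h8, h9, h10⟩ := h2 X' h4 h5 (fun a ha => (h6 a ha).trans (hX a ha).symm)
      exact ⟨Y', h7, h8, fun a ha => (h9 a ha).trans (hY a ha), h10⟩
    · intro Y' h4 h5 h6
      obtain ⟨X', h7, h8, h9, h10⟩ := h3 Y' h4 h5 (fun a ha => (h6 a ha).trans (hY a ha).symm)
      exact ⟨X', h7, h8, fun a ha => (h9 a ha).trans (hX a ha), h10⟩

/-- realise an extension of the diagram -/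
theorem exists_ext (hE : ExtP ar S) {N : ℕ} {v : ℕ → M} (hv : Set.InjOn v (Finset.range N)) {X' : List Atom}
    (h2 : LD ar S (N + 1) X') (h3 : ExtD ar N (Dg ar S N v) X') :
    ∃ v' : ℕ → M, (∀ i < N, v' i = v i) ∧ Set.InjOn v' (Finset.range (N + 1)) ∧
      AgD ar (N + 1) (Dg ar S (N + 1) v') X' := by
  obtain ⟨v', h4, h5, h6⟩ := hE.ext N (N + 1) v (fun a => a ∈ X') (by omega) hv h2 (by
    intro a ha hs
    rw [supp_iff ha] at hs
    rw [h3 a hs, mem_Dg' hs])
  refine ⟨v', h4, h5, ?_⟩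
  intro a ha
  rw [mem_Dg' ha]
  exact h6 a ((mem_atomsL ar).1 ha).1 ((supp_iff ((mem_atomsL ar).1 ha).1).2 ha)

theorem ExtD_Dg {N : ℕ} {v v' : ℕ → M} (h : ∀ i < N, v' i = v i) :
    ExtD ar N (Dg ar S N v) (Dg ar S (N + 1) v') := by
  intro a ha
  have ha' := (mem_atomsL ar).1 ha
  rw [mem_Dg' ha, mem_Dg' ((mem_atomsL ar).2 ⟨ha'.1, fun x hx => (ha'.2 x hx).trans (Nat.lt_succ_self N)⟩)]
  exact Hold_congr fun x hx => h x (ha'.2 x hx)

/-- tuples with the same type in the reduct are equivalent for the games -/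
theorem WR_of_ET (hE : ExtP ar S) {P : List (ℕ × QF)}
    (hT : ∀ j, FODef ar S (relL ar S P j)) (r : ℕ) {N : ℕ} {v w : ℕ → M}
    (hv : Set.InjOn v (Finset.range N)) (h : ET (brL P) (relL ar S P) N v w) :
    WR ar S P r N (Dg ar S N v) (Dg ar S N w) := by
  have hB : ∀ {N : ℕ} {v w : ℕ → M}, Set.InjOn v (Finset.range N) → ET (brL P) (relL ar S P) N v w →
      Base ar P N (Dg ar S N v) (Dg ar S N w) := by
    intro N v w hv h p hp g hg
    have hg' := listsOf_getD hg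
    obtain ⟨j, hj, rfl⟩ := List.mem_iff_getElem.1 hp
    rw [← qf_Dg hv hg', ← qf_Dg (ET_injOn h hv) hg']
    exact ET_rel h ⟨j, hj⟩ (fun t => g.getD t 0) (fun t => hg' t t.2)
  induction r generalizing N v w with
  | zero => exact hB hv h
  | succ r ih =>
    refine ⟨hB hv h, ?_, ?_⟩
    · intro X' h1 h2 h3
      obtain ⟨v', h4, h5, h6⟩ := exists_ext hE hv h2 h3
      obtain ⟨w', h7, h8⟩ := ET_forth hE hT h v' h4
      exact ⟨Dg ar S (N + 1) w', Dg_mem_subs _ _, Dg_LD (ET_injOn h8 h5), ExtD_Dg h7,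
        WR_congr h6 (fun _ _ => Iff.rfl) (ih h5 h8)⟩
    · intro Y' h1 h2 h3
      obtain ⟨w', h4, h5, h6⟩ := exists_ext hE (ET_injOn h hv) h2 h3
      obtain ⟨v', h7, h8⟩ := ET_forth hE hT h.symm w' h4
      exact ⟨Dg ar S (N + 1) v', Dg_mem_subs _ _, Dg_LD (ET_injOn h8 h5), ExtD_Dg h7,
        WR_congr (fun _ _ => Iff.rfl) h6 (ih (ET_injOn h8 h5) h8.symm)⟩

/-- pigeonhole for descending chains of predicates on a finite set -/
theorem exists_all_of {α : Type} {L : List α} {p : ℕ → α → Prop} (hp : ∀ r a, p (r + 1) a → p r a)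
    (h : ∀ r, ∃ a ∈ L, p r a) : ∃ a ∈ L, ∀ r, p r a := by
  classical
  by_contra hcon
  push Not at hcon
  have hmono : ∀ r r' a, r ≤ r' → p r' a → p r a := by
    intro r r' a hr
    induction hr with
    | refl => exact id
    | step _ ih => exact fun h => ih (hp _ _ h)
  have h1 : ∀ a, ∃ r, a ∈ L → ¬ p r a := by
    intro a
    by_cases ha : a ∈ L
    · obtain ⟨r, hr⟩ := hcon a ha
      exact ⟨r, fun _ => hr⟩
    · exact ⟨0, fun h => absurd h ha⟩
  choose f hf using h1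
  obtain ⟨a, ha, hpa⟩ := h ((L.map f).sum)
  apply hf a ha
  apply hmono (f a) _ a _ hpa
  exact List.single_le_sum (by simp) _ (List.mem_map.2 ⟨a, ha, rfl⟩)

theorem WR_symm {P : List (ℕ × QF)} {r N : ℕ} {X Y : List Atom} (h : WR ar S P r N X Y) : WR ar S P r N Y X := by
  have hb : ∀ {N : ℕ} {X Y : List Atom}, Base ar P N X Y → Base ar P N Y X := fun h p hp g hg => (h p hp g hg).symm
  induction r generalizing N X Y with
  | zero => exact hb h
  | succ r ih =>
    obtain ⟨h1, h2, h3⟩ := h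
    refine ⟨hb h1, ?_, ?_⟩
    · intro X' h4 h5 h6
      obtain ⟨Y', h7, h8, h9, h10⟩ := h3 X' h4 h5 h6
      exact ⟨Y', h7, h8, h9, ih h10⟩
    · intro Y' h4 h5 h6
      obtain ⟨X', h7, h8, h9, h10⟩ := h2 Y' h4 h5 h6
      exact ⟨X', h7, h8, h9, ih h10⟩

theorem game_forth (hE : ExtP ar S) {P : List (ℕ × QF)} {N : ℕ} {v w : ℕ → M} {a : M}
    (hv : Set.InjOn v (Finset.range N)) (hw : Set.InjOn w (Finset.range N)) (ha : ∀ i < N, v i ≠ a)
    (h : ∀ r, WR ar S P r N (Dg ar S N v) (Dg ar S N w)) :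
    ∃ v' w', (∀ i < N, v' i = v i) ∧ (∀ i < N, w' i = w i) ∧ v' N = a ∧
      Set.InjOn v' (Finset.range (N + 1)) ∧ Set.InjOn w' (Finset.range (N + 1)) ∧
        ∀ r, WR ar S P r (N + 1) (Dg ar S (N + 1) v') (Dg ar S (N + 1) w') := by
  have e1 : ∀ i < N, Function.update v N a i = v i := fun i hi => by
    rw [Function.update_of_ne (by omega)]
  have hinj : Set.InjOn (Function.update v N a) (Finset.range (N + 1)) :=
    injOn_succ hv e1 (fun i hi => by rw [Function.update_self]; exact ha i hi)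
  obtain ⟨Y', h1, h2⟩ := exists_all_of (L := subs (atomsL ar (N + 1)))
      (p := fun r Y' => LD ar S (N + 1) Y' ∧ ExtD ar N (Dg ar S N w) Y' ∧
        WR ar S P r (N + 1) (Dg ar S (N + 1) (Function.update v N a)) Y')
      (fun r a h => ⟨h.1, h.2.1, WR_succ h.2.2⟩) (fun r => by
        obtain ⟨Y', h1, h2⟩ := (h (r + 1)).2.1 (Dg ar S (N + 1) (Function.update v N a)) (Dg_mem_subs _ _)
          (Dg_LD hinj) (ExtD_Dg e1)
        exact ⟨Y', h1, h2⟩)
  obtain ⟨w', h3, h4, h5⟩ := exists_ext hE hw (h2 0).1 (h2 0).2.1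
  exact ⟨Function.update v N a, w', e1, h3, Function.update_self _ _ _, hinj, h4,
    fun r => WR_congr (fun _ _ => Iff.rfl) h5.symm (h2 r).2.2⟩

/-- tuples equivalent for all games have the same type in the reduct -/
theorem ET_of_WR (hE : ExtP ar S) {P : List (ℕ × QF)} {N : ℕ} {v w : ℕ → M} (hv : Set.InjOn v (Finset.range N))
    (hw : Set.InjOn w (Finset.range N)) (h : ∀ r, WR ar S P r N (Dg ar S N v) (Dg ar S N w)) :
    ET (brL P) (relL ar S P) N v w := by
  have hI : BFS (brL P) (relL ar S P) (fun N v w => Set.InjOn v (Finset.range N) ∧ Set.InjOn w (Finset.range N) ∧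
      ∀ r, WR ar S P r N (Dg ar S N v) (Dg ar S N w)) := by
    constructor
    · exact fun h => h.1
    · exact fun h => h.2.1
    · intro N v w h j x hx
      have h1 := h.2.2 0
      have h2 := h1 (P.get j) (List.get_mem _ _) (List.ofFn x) (by
        rw [mem_listsOf]
        refine ⟨List.length_ofFn, ?_⟩
        intro y hy
        rw [List.mem_ofFn] at hy
        obtain ⟨t, rfl⟩ := hy
        exact hx t)
      have hg : ∀ z < (P.get j).1, (List.ofFn x).getD z 0 < N := by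
        intro z hz
        have hz' : z < (List.ofFn x).length := by
          rw [List.length_ofFn]
          exact hz
        rw [List.getD_eq_getElem _ _ hz', List.getElem_ofFn]
        exact hx _
      rw [← qf_Dg h.1 hg, ← qf_Dg h.2.1 hg] at h2
      have e : ∀ u : ℕ → M, (fun i : Fin (P.get j).1 => u ((List.ofFn x).getD (i : ℕ) 0)) = fun t => u (x t) := by
        intro u
        funext t
        have ht : (t : ℕ) < (List.ofFn x).length := by
          rw [List.length_ofFn]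
          exact t.2
        rw [List.getD_eq_getElem _ _ ht, List.getElem_ofFn]
        rfl
      rw [e, e] at h2
      exact h2
    · intro N v w h a ha
      obtain ⟨v', w', h1, h2, h3, h4, h5, h6⟩ := game_forth hE h.1 h.2.1 ha h.2.2
      exact ⟨v', w', h1, h2, h3, h4, h5, h6⟩
    · intro N v w h a ha
      obtain ⟨w', v', h1, h2, h3, h4, h5, h6⟩ := game_forth hE h.2.1 h.1 ha (fun r => WR_symm (h.2.2 r))
      exact ⟨v', w', h2, h1, h3, h5, h4, fun r => WR_symm (h6 r)⟩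
  exact ET_of_bf hI ⟨hv, hw, h⟩

/-- the formula `φ` in `n` variables is invariant under the equivalence for the game with `r` rounds -/
def Inv {l : ℕ} (ar : Fin l → ℕ) {M : Type} (S : ∀ i, (Fin (ar i) → M) → Prop) (P : List (ℕ × QF)) (x : ℕ × QF)
    (r : ℕ) : Prop :=
  ∀ N ∈ List.range (x.1 + 1), ∀ h ∈ listsOf x.1 N, ∀ X ∈ subs (atomsL ar N), ∀ Y ∈ subs (atomsL ar N),
    LD ar S N X → LD ar S N Y → WR ar S P r N X Y →
      (EvF ar x.1 h (fun a => a ∈ X) x.2 ↔ EvF ar x.1 h (fun a => a ∈ Y) x.2)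

theorem exists_of_LD {N : ℕ} {X : List Atom} (h : LD ar S N X) :
    ∃ v : ℕ → M, Set.InjOn v (Finset.range N) ∧ AgD ar N (Dg ar S N v) X := by
  obtain ⟨v, h1, h2⟩ := h
  exact ⟨v, h1, fun a ha => by
    rw [mem_Dg' ha]
    exact h2 a ((mem_atomsL ar).1 ha).1 ((supp_iff ((mem_atomsL ar).1 ha).1).2 ha)⟩

/-- definability: invariance for some game -/
theorem defL_iff [Nonempty M] (hE : ExtP ar S) {P : List (ℕ × QF)} (hT : ∀ j, FODef ar S (relL ar S P j))
    (x : ℕ × QF) : DefL ar S P x ↔ ∃ r, Inv ar S P x r := by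
  classical
  unfold DefL
  rw [fodef_iff hE hT]
  constructor
  · intro hinv
    by_contra hcon
    push Not at hcon
    -- a list of all data
    let L : List (ℕ × List ℕ × List Atom × List Atom) := (List.range (x.1 + 1)).flatMap (fun N =>
      (listsOf x.1 N).flatMap (fun h => (subs (atomsL ar N)).flatMap (fun X => (subs (atomsL ar N)).map
        (fun Y => (N, h, X, Y)))))
    have h1 : ∀ r, ∃ d ∈ L, LD ar S d.1 d.2.2.1 ∧ LD ar S d.1 d.2.2.2 ∧ d.2.1 ∈ listsOf x.1 d.1 ∧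
        WR ar S P r d.1 d.2.2.1 d.2.2.2 ∧
        ¬ (EvF ar x.1 d.2.1 (fun a => a ∈ d.2.2.1) x.2 ↔ EvF ar x.1 d.2.1 (fun a => a ∈ d.2.2.2) x.2) := by
      intro r
      have h2 := hcon r
      unfold Inv at h2
      push Not at h2
      obtain ⟨N, hN, h, hh, X, hX, Y, hY, h3, h4, h5, h6⟩ := h2
      refine ⟨(N, h, X, Y), ?_, h3, h4, hh, h5, ?_⟩
      · simp only [L, List.mem_flatMap, List.mem_map]
        exact ⟨N, hN, h, hh, X, hX, Y, hY, rfl⟩
      · rcases h6 with ⟨h6, h7⟩ | ⟨h6, h7⟩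
        · exact fun hc => h7 (hc.1 h6)
        · exact fun hc => h6 (hc.2 h7)
    obtain ⟨⟨N, h, X, Y⟩, -, h2⟩ := exists_all_of (p := fun r (d : ℕ × List ℕ × List Atom × List Atom) =>
        LD ar S d.1 d.2.2.1 ∧ LD ar S d.1 d.2.2.2 ∧ d.2.1 ∈ listsOf x.1 d.1 ∧
        WR ar S P r d.1 d.2.2.1 d.2.2.2 ∧
        ¬ (EvF ar x.1 d.2.1 (fun a => a ∈ d.2.2.1) x.2 ↔ EvF ar x.1 d.2.1 (fun a => a ∈ d.2.2.2) x.2))
      (fun r a h => ⟨h.1, h.2.1, h.2.2.1, WR_succ h.2.2.2.1, h.2.2.2.2⟩) h1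
    simp only at h2
    obtain ⟨h3, h4, hh, -, h5⟩ := h2 0
    obtain ⟨v, hv1, hv2⟩ := exists_of_LD h3
    obtain ⟨w, hw1, hw2⟩ := exists_of_LD h4
    have hET : ET (brL P) (relL ar S P) N v w :=
      ET_of_WR hE hv1 hw1 fun r => WR_congr hv2.symm hw2.symm (h2 r).2.2.2.1
    have hh' := listsOf_getD hh
    have hET' := ET_comp hET (fun i => h.getD i 0) hh'
    apply h5
    rw [← EvF_congr hh' hv2, ← EvF_congr hh' hw2, ← qf_Dg hv1 hh', ← qf_Dg hw1 hh']
    exact ⟨hinv _ _ hET', hinv _ _ hET'.symm⟩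
  · rintro ⟨r, hr⟩ y z hyz hy
    obtain ⟨n', π, σ, h1, h2, h3, h4, h5, h6, h7, h8⟩ := exists_red y z x.1 (fun i hi j hj => ET_eq hyz hi hj)
    let h : List ℕ := (List.range x.1).map π
    have hh : ∀ i < x.1, h.getD i 0 = π i := by
      intro i hi
      rw [List.getD_eq_getElem _ _ (by simpa [h] using hi)]
      simp [h]
    have hh' : ∀ i < x.1, h.getD i 0 < n' := fun i hi => by rw [hh i hi]; exact h2 i hi
    have hET : ET (brL P) (relL ar S P) n' (fun i => y (σ i)) (fun i => z (σ i)) := ET_comp hyz σ h3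
    have h9 := hr n' (by simpa using Nat.lt_succ_of_le h1) h (by
      rw [mem_listsOf]
      refine ⟨by simp [h], ?_⟩
      intro t ht
      simp only [h, List.mem_map, List.mem_range] at ht
      obtain ⟨i, hi, rfl⟩ := ht
      exact h2 i hi) _ (Dg_mem_subs n' (fun i => y (σ i))) _ (Dg_mem_subs n' (fun i => z (σ i)))
      (Dg_LD h7) (Dg_LD h8) (WR_of_ET hE hT r h7 hET)
    rw [← qf_Dg h7 hh', ← qf_Dg h8 hh'] at h9
    have e1 : (fun i : Fin x.1 => y (σ (h.getD i 0))) = fun i : Fin x.1 => y i := by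
      funext i
      rw [hh i i.2]
      exact h5 i i.2
    have e2 : (fun i : Fin x.1 => z (σ (h.getD i 0))) = fun i : Fin x.1 => z i := by
      funext i
      rw [hh i i.2]
      exact h6 i i.2
    rw [e1, e2] at h9
    exact h9.1 hy

end

end EF50
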